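import Pool.Agent.X25.GM.Sing

/-! Bounds for the mean value of the singular series. -/

set_option autoImplicit false

namespace Pool.Agent.X25.GM

open Finset
open Pool.Agent.H378R2 (Phi MPhi nu Phi_nonneg Phi_le_half)
open Pool.Agent.H560R3.GB (sing C₂)
open Pool.Agent.W93.GB (Pz dv)

theorem MPhi_nonneg (X : ℝ) : 0 ≤ MPhi X := Finset.sum_nonneg fun _ _ => Phi_nonneg _

theorem class_le (X : ℝ) (hX : 4 ≤ X) (Q b : ℕ) (hQ : 0 < Q) :
    ∑ n ∈ (Icc 1 ⌊3 * X⌋₊).filter (fun n => n ≡ b [MOD Q]), Phi (n / X) ≤ MPhi X / Q + 5 := by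
  rcases le_or_gt (Q : ℝ) X with h | h
  · have h1 := (abs_le.1 (Pool.Agent.H378R2.phi_sum_class X hX Q b hQ h)).2
    rw [div_eq_mul_one_div]
    linarith
  · have h0 : 0 ≤ MPhi X / Q := div_nonneg (MPhi_nonneg X) (Nat.cast_nonneg _)
    have hcard : ((Icc 1 ⌊3 * X⌋₊).filter (fun n => n ≡ b [MOD Q])).card ≤ 3 := by
      calc _ ≤ (range 3).card := by
            apply Finset.card_le_card_of_injOn (fun n => n / Q)
            · intro n hn
              obtain ⟨h1, -⟩ := mem_filter.1 (mem_coe.1 hn)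
              obtain ⟨-, h2⟩ := mem_Icc.1 h1
              refine mem_coe.2 (mem_range.2 ?_)
              rw [Nat.div_lt_iff_lt_mul hQ]
              have h3 : (n : ℝ) ≤ 3 * X := by
                refine le_trans ?_ (Nat.floor_le (by linarith : (0 : ℝ) ≤ 3 * X))
                exact_mod_cast h2
              have h4 : (n : ℝ) < 3 * Q := by linarith
              exact_mod_cast h4
            · intro n hn m hm hnm
              have h1 := (mem_filter.1 (mem_coe.1 hn)).2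
              have h2 := (mem_filter.1 (mem_coe.1 hm)).2
              have h3 : n % Q = m % Q := h1.trans h2.symm
              have h4 : n / Q = m / Q := hnm
              rw [← Nat.div_add_mod n Q, ← Nat.div_add_mod m Q, h3, h4]
        _ = 3 := by simp
    calc _ ≤ ∑ _n ∈ (Icc 1 ⌊3 * X⌋₊).filter (fun n => n ≡ b [MOD Q]), (1 / 2 : ℝ) :=
          Finset.sum_le_sum fun _ _ => Phi_le_half _
      _ = ((Icc 1 ⌊3 * X⌋₊).filter (fun n => n ≡ b [MOD Q])).card * (1 / 2) := by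
          rw [Finset.sum_const, nsmul_eq_mul]
      _ ≤ 3 * (1 / 2) := by
          have : (((Icc 1 ⌊3 * X⌋₊).filter (fun n => n ≡ b [MOD Q])).card : ℝ) ≤ 3 := by exact_mod_cast hcard
          linarith
      _ ≤ _ := by linarith

/-- the inner sum as a sum over one class -/
theorem inner_eq (X : ℝ) (W d u : ℕ) (hd : 0 < d) (hco : Nat.Coprime W (2 * d)) : ∃ b : ℕ,
    ∑ v ∈ Icc 1 ⌊3 * X⌋₊, nu X W 0 v * (if 2 * d ∣ u + v then 1 else 0) =
      ∑ n ∈ (Icc 1 ⌊3 * X⌋₊).filter (fun n => n ≡ b [MOD W * (2 * d)]), Phi (n / X) := by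
  have h2d : 0 < 2 * d := by omega
  set a := 2 * d - u % (2 * d) with ha
  have hmod : u % (2 * d) < 2 * d := Nat.mod_lt _ h2d
  have hua : 2 * d ∣ u + a := by
    refine ⟨u / (2 * d) + 1, ?_⟩
    have := Nat.div_add_mod u (2 * d)
    rw [mul_add, mul_one]
    omega
  have hiff : ∀ v, 2 * d ∣ u + v ↔ v ≡ a [MOD 2 * d] := by
    intro v
    have h0 : u + a ≡ 0 [MOD 2 * d] := (Nat.modEq_zero_iff_dvd).2 hua
    constructor
    · intro h
      have h1 : u + v ≡ 0 [MOD 2 * d] := (Nat.modEq_zero_iff_dvd).2 h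
      exact Nat.ModEq.add_left_cancel' u (h1.trans h0.symm)
    · intro h
      exact (Nat.modEq_zero_iff_dvd).1 ((Nat.ModEq.add_left u h).trans h0)
  obtain ⟨b, hb1, hb2⟩ := Nat.chineseRemainder hco 0 a
  refine ⟨b, ?_⟩
  rw [Finset.sum_filter]
  apply Finset.sum_congr rfl
  intro v _
  have h1 : v ≡ b [MOD W * (2 * d)] ↔ v ≡ 0 [MOD W] ∧ 2 * d ∣ u + v := by
    rw [← Nat.modEq_and_modEq_iff_modEq_mul hco, hiff]
    constructor
    · rintro ⟨h1, h2⟩
      exact ⟨h1.trans hb1, h2.trans hb2⟩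
    · rintro ⟨h1, h2⟩
      exact ⟨h1.trans hb1.symm, h2.trans hb2.symm⟩
  unfold nu
  by_cases h2 : v ≡ 0 [MOD W]
  · by_cases h3 : 2 * d ∣ u + v
    · rw [if_pos h2, if_pos h3, if_pos (h1.2 ⟨h2, h3⟩), mul_one]
    · rw [if_neg h3, if_neg (fun h => h3 (h1.1 h).2), mul_zero]
  · rw [if_neg h2, if_neg (fun h => h2 (h1.1 h).1), zero_mul]

noncomputable def Sn (X : ℝ) (W : ℕ) : ℝ := ∑ u ∈ Icc 1 ⌊3 * X⌋₊, nu X W 0 u

theorem Sn_eq (X : ℝ) (W : ℕ) : Sn X W =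
    ∑ n ∈ (Icc 1 ⌊3 * X⌋₊).filter (fun n => n ≡ 0 [MOD W]), Phi (n / X) := by
  unfold Sn nu
  rw [Finset.sum_filter]

theorem Sn_nonneg (X : ℝ) (W : ℕ) : 0 ≤ Sn X W :=
  Finset.sum_nonneg fun _ _ => Pool.Agent.H378R2.nu_nonneg _ _ _ _

theorem cc_eq (X : ℝ) (W d : ℕ) : cc X W d =
    ∑ u ∈ Icc 1 ⌊3 * X⌋₊, nu X W 0 u * ∑ v ∈ Icc 1 ⌊3 * X⌋₊, nu X W 0 v * (if 2 * d ∣ u + v then 1 else 0) := by
  unfold cc
  apply Finset.sum_congr rfl
  intro u _
  rw [Finset.mul_sum]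
  apply Finset.sum_congr rfl
  intro v _
  ring

theorem cc_le (X : ℝ) (hX : 4 ≤ X) (W d : ℕ) (hW : 0 < W) (hd : 0 < d) (hco : Nat.Coprime W (2 * d)) :
    cc X W d ≤ Sn X W * (MPhi X / (W * (2 * d) : ℕ) + 5) := by
  rw [cc_eq]
  unfold Sn
  rw [Finset.sum_mul]
  apply Finset.sum_le_sum
  intro u _
  apply mul_le_mul_of_nonneg_left _ (Pool.Agent.H378R2.nu_nonneg _ _ _ _)
  obtain ⟨b, hb⟩ := inner_eq X W d u hd hco
  rw [hb]
  exact class_le X hX _ b (by positivity)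

theorem cc_ge (X : ℝ) (hX : 4 ≤ X) (W d : ℕ) (hW : 0 < W) (hd : 0 < d) (hco : Nat.Coprime W (2 * d))
    (hWX : ((W * (2 * d) : ℕ) : ℝ) ≤ X) :
    Sn X W * (MPhi X / (W * (2 * d) : ℕ) - 5) ≤ cc X W d := by
  rw [cc_eq]
  unfold Sn
  rw [Finset.sum_mul]
  apply Finset.sum_le_sum
  intro u _
  apply mul_le_mul_of_nonneg_left _ (Pool.Agent.H378R2.nu_nonneg _ _ _ _)
  obtain ⟨b, hb⟩ := inner_eq X W d u hd hco
  rw [hb]
  have h1 := (abs_le.1 (Pool.Agent.H378R2.phi_sum_class X hX (W * (2 * d)) b (by positivity) hWX)).1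
  rw [div_eq_mul_one_div]
  linarith

theorem cc_nonneg (X : ℝ) (W d : ℕ) : 0 ≤ cc X W d := by
  unfold cc
  apply Finset.sum_nonneg
  intro u _
  apply Finset.sum_nonneg
  intro v _
  have h1 := Pool.Agent.H378R2.nu_nonneg X W 0 u
  have h2 := Pool.Agent.H378R2.nu_nonneg X W 0 v
  split_ifs <;> positivity

theorem gp_sqrt (k : ℕ) (hk : 1 ≤ k) : ∏ p ∈ OP (2 * k + 2), (1 + gp p) ≤ 2 * Real.sqrt k := by
  induction k, hk using Nat.le_induction with
  | base =>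
    have h : OP (2 * 1 + 2) = {3} := by decide
    rw [h, Finset.prod_singleton]
    unfold gp
    norm_num
  | succ k hk ih =>
    have hkr : (1 : ℝ) ≤ k := by exact_mod_cast hk
    have hsub : OP (2 * (k + 1) + 2) ⊆ insert (2 * k + 3) (OP (2 * k + 2)) := by
      intro p hp
      obtain ⟨h1, h2, h3⟩ := mem_OP.1 hp
      rw [mem_insert, mem_OP]
      by_cases h4 : p = 2 * k + 3
      · exact Or.inl h4
      · by_cases h5 : p = 2 * k + 4
        · exfalso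
          have h6 : 2 ∣ p := ⟨k + 2, by omega⟩
          have := (Nat.prime_dvd_prime_iff_eq Nat.prime_two h3).1 h6
          omega
        · exact Or.inr ⟨h1, by omega, h3⟩
    have hge : ∀ p ∈ insert (2 * k + 3) (OP (2 * k + 2)), (1 : ℝ) ≤ 1 + gp p := by
      intro p hp
      have : 3 ≤ p := by
        rcases mem_insert.1 hp with h | h
        · omega
        · exact (mem_OP.1 h).1
      have := gp_nonneg this
      linarith
    have h1 : ∏ p ∈ OP (2 * (k + 1) + 2), (1 + gp p) ≤ ∏ p ∈ insert (2 * k + 3) (OP (2 * k + 2)), (1 + gp p) := by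
      apply Finset.prod_le_prod_of_subset_of_one_le hsub
      · intro p hp
        have := hge p (hsub hp)
        linarith
      · intro p hp _
        exact hge p hp
    have hnot : 2 * k + 3 ∉ OP (2 * k + 2) := by
      rw [mem_OP]; omega
    rw [Finset.prod_insert hnot] at h1
    refine h1.trans ?_
    have h2 : 1 + gp (2 * k + 3) ≤ Real.sqrt ((k + 1 : ℕ) / k) := by
      apply Real.le_sqrt_of_sq_le
      unfold gp
      push_cast
      have e : (1 : ℝ) + 1 / (2 * k + 3 - 2) = (2 * k + 2) / (2 * k + 1) := by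
        rw [show (2 * (k : ℝ) + 3 - 2) = 2 * k + 1 by ring]
        field_simp; ring
      rw [e, div_pow, div_le_div_iff₀ (by positivity) (by positivity)]
      nlinarith
    have h3 : 0 ≤ 1 + gp (2 * k + 3) := by
      have := gp_nonneg (show 3 ≤ 2 * k + 3 by omega)
      linarith
    have h4 : 0 ≤ ∏ p ∈ OP (2 * k + 2), (1 + gp p) := by
      apply Finset.prod_nonneg
      intro p hp
      have := gp_nonneg (mem_OP.1 hp).1
      linarith
    calc (1 + gp (2 * k + 3)) * ∏ p ∈ OP (2 * k + 2), (1 + gp p)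
        ≤ Real.sqrt ((k + 1 : ℕ) / k) * (2 * Real.sqrt k) := by gcongr
      _ = 2 * (Real.sqrt ((k + 1 : ℕ) / k) * Real.sqrt k) := by ring
      _ = 2 * Real.sqrt ((k + 1 : ℕ)) := by
          rw [← Real.sqrt_mul (by positivity)]
          congr 2
          field_simp

/-- `∏ (1 + 1 / (p - 2)) ≤ 2 √z` -/
theorem prod_gp_le (z : ℕ) (t : Finset ℕ) (ht : t ⊆ OP z) (hz : 1 ≤ z) :
    ∏ p ∈ t, (1 + gp p) ≤ 2 * Real.sqrt z := by
  refine le_trans ?_ (gp_sqrt z hz)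
  have hsub : t ⊆ OP (2 * z + 2) := by
    intro p hp
    obtain ⟨h1, h2, h3⟩ := mem_OP.1 (ht hp)
    exact mem_OP.2 ⟨h1, by omega, h3⟩
  apply Finset.prod_le_prod_of_subset_of_one_le hsub
  · intro p hp
    have := gp_nonneg (mem_OP.1 (hsub hp)).1
    linarith
  · intro p hp _
    have := gp_nonneg (mem_OP.1 hp).1
    linarith

theorem Pz_OP (z : ℕ) : Pz z = ∏ p ∈ OP z, (1 - 1 / ((p : ℝ) - 1) ^ 2) := rfl

theorem loc_one {p : ℕ} (hp : 3 ≤ p) : (1 - 1 / ((p : ℝ) - 1) ^ 2) * (1 + gp p / p) = 1 := by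
  have h : (3 : ℝ) ≤ p := by exact_mod_cast hp
  unfold gp
  have h1 : (p : ℝ) - 1 ≠ 0 := by linarith
  have h2 : (p : ℝ) - 2 ≠ 0 := by linarith
  have h3 : (p : ℝ) ≠ 0 := by linarith
  field_simp
  ring

theorem loc_two {p : ℕ} (hp : 3 ≤ p) : (1 + gp p) * (1 - 1 / ((p : ℝ) - 1) ^ 2) = (p : ℝ) / (p - 1) := by
  have h : (3 : ℝ) ≤ p := by exact_mod_cast hp
  unfold gp
  have h1 : (p : ℝ) - 1 ≠ 0 := by linarith
  have h2 : (p : ℝ) - 2 ≠ 0 := by linarith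
  field_simp
  ring

theorem loc_nonneg {p : ℕ} (hp : 3 ≤ p) : 0 ≤ 1 - 1 / ((p : ℝ) - 1) ^ 2 := by
  have h : (3 : ℝ) ≤ p := by exact_mod_cast hp
  rw [sub_nonneg, div_le_one (by nlinarith)]
  nlinarith

/-- `∏ p / (p - 1)` -/
noncomputable def RW (P : Finset ℕ) : ℝ := ∏ p ∈ P, (p : ℝ) / (p - 1)

theorem RW_pos {z : ℕ} {P : Finset ℕ} (hP : P ⊆ OP z) : 0 < RW P := by
  apply Finset.prod_pos
  intro p hp
  have h : (3 : ℝ) ≤ p := by exact_mod_cast (mem_OP.1 (hP hp)).1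
  apply div_pos <;> linarith

theorem sum_prod_eq {z : ℕ} (t : Finset ℕ) (ht : t ⊆ OP z) (M W : ℝ) :
    ∑ s ∈ t.powerset, (∏ p ∈ s, gp p) * (M / (W * (2 * (∏ p ∈ s, p : ℕ)))) =
      M / (2 * W) * ∏ p ∈ t, (1 + gp p / p) := by
  rw [Finset.prod_one_add, Finset.mul_sum]
  apply Finset.sum_congr rfl
  intro s hs
  have h1 : ((∏ p ∈ s, p : ℕ) : ℝ) = ∏ p ∈ s, (p : ℝ) := by push_cast; rfl
  rw [h1, Finset.prod_div_distrib]
  have h2 : ∏ p ∈ s, (p : ℝ) ≠ 0 := by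
    rw [Finset.prod_ne_zero_iff]
    intro p hp
    have := (mem_OP.1 (ht (mem_powerset.1 hs hp))).1
    exact_mod_cast (by omega : p ≠ 0)
  rcases eq_or_ne W 0 with h3 | h3
  · rw [h3]; simp
  · field_simp

theorem C2_nonneg : 0 ≤ C₂ := Pool.Agent.W93.GB.C2_pos.le

theorem C2_le_one : C₂ ≤ 1 := by
  have h := Pool.Agent.W93.GB.C2_le 2
  have h1 : Pz 2 = 1 := by
    rw [Pz_OP]
    have : OP 2 = ∅ := by decide
    rw [this]; simp
  linarith

/-- **upper bound for the sum of the singular series** -/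
theorem tot_le (X : ℝ) (hX : 4 ≤ X) {P : Finset ℕ} (hP : P ⊆ OP (2 * ⌊3 * X⌋₊)) :
    tot X (∏ p ∈ P, p) ≤ Sn X (∏ p ∈ P, p) *
      (MPhi X / (∏ p ∈ P, p : ℕ) * RW P + 20 * Real.sqrt ((2 * ⌊3 * X⌋₊ : ℕ) : ℝ)) := by
  classical
  set N := ⌊3 * X⌋₊ with hN
  set W := ∏ p ∈ P, p with hW
  have hN1 : 1 ≤ 2 * N := by
    have : 12 ≤ N := Nat.le_floor (by push_cast; linarith)
    omega
  have hW0 : 0 < W := prod_pos' hP
  have hWr : (0 : ℝ) < W := by exact_mod_cast hW0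
  rw [tot_eq2 X hP]
  have hS := Sn_nonneg X W
  have hC := C2_nonneg
  have hA0 : 0 ≤ ∏ p ∈ P, (1 + gp p) := Finset.prod_nonneg fun p hp => by
    have := gp_nonneg (mem_OP.1 (hP hp)).1
    linarith
  have h1 : ∑ t ∈ (OP (2 * N) \ P).powerset, (∏ p ∈ t, gp p) * cc X W (∏ p ∈ t, p) ≤
      Sn X W * (MPhi X / (2 * W) * ∏ p ∈ OP (2 * N) \ P, (1 + gp p / p) + 5 * ∏ p ∈ OP (2 * N) \ P, (1 + gp p)) := by
    rw [← sum_prod_eq (OP (2 * N) \ P) Finset.sdiff_subset, Finset.prod_one_add (f := gp), mul_add, Finset.mul_sum,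
      ← mul_assoc, Finset.mul_sum, ← Finset.sum_add_distrib]
    apply Finset.sum_le_sum
    intro t ht
    have ht' := mem_powerset.1 ht
    have hto : t ⊆ OP (2 * N) := ht'.trans Finset.sdiff_subset
    have hg : 0 ≤ ∏ p ∈ t, gp p := Finset.prod_nonneg fun p hp => gp_nonneg (mem_OP.1 (hto hp)).1
    have hco : Nat.Coprime W (2 * ∏ p ∈ t, p) := by
      refine Nat.Coprime.mul_right (prod_odd hP).symm (prod_cop hP hto ?_)
      rw [Finset.disjoint_left]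
      intro p h5 h6
      exact (Finset.mem_sdiff.1 (ht' h6)).2 h5
    have h2 := cc_le X hX W (∏ p ∈ t, p) hW0 (prod_pos' hto) hco
    calc (∏ p ∈ t, gp p) * cc X W (∏ p ∈ t, p)
        ≤ (∏ p ∈ t, gp p) * (Sn X W * (MPhi X / (W * (2 * ∏ p ∈ t, p) : ℕ) + 5)) := by gcongr
      _ = _ := by push_cast; ring
  have hB0 : ∀ p ∈ OP (2 * N) \ P, (0 : ℝ) ≤ 1 + gp p / p := by
    intro p hp
    have := gp_nonneg (mem_OP.1 (Finset.sdiff_subset hp)).1
    positivity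
  have hM := MPhi_nonneg X
  have h2 : C₂ * ∏ p ∈ OP (2 * N) \ P, (1 + gp p / p) ≤ ∏ p ∈ P, (1 - 1 / ((p : ℝ) - 1) ^ 2) := by
    calc C₂ * ∏ p ∈ OP (2 * N) \ P, (1 + gp p / p) ≤ Pz (2 * N) * ∏ p ∈ OP (2 * N) \ P, (1 + gp p / p) :=
          mul_le_mul_of_nonneg_right (Pool.Agent.W93.GB.C2_le _) (Finset.prod_nonneg hB0)
      _ = ∏ p ∈ P, (1 - 1 / ((p : ℝ) - 1) ^ 2) := by
          rw [Pz_OP, ← Finset.prod_sdiff hP, mul_assoc, mul_comm (∏ p ∈ P, _), ← mul_assoc, ← Finset.prod_mul_distrib]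
          rw [Finset.prod_congr rfl fun p hp => loc_one (mem_OP.1 (Finset.sdiff_subset hp)).1]
          simp
  have h3 : (∏ p ∈ P, (1 + gp p)) * ∏ p ∈ P, (1 - 1 / ((p : ℝ) - 1) ^ 2) = RW P := by
    rw [← Finset.prod_mul_distrib]
    exact Finset.prod_congr rfl fun p hp => loc_two (mem_OP.1 (hP hp)).1
  have h4 : (∏ p ∈ P, (1 + gp p)) * ∏ p ∈ OP (2 * N) \ P, (1 + gp p) ≤ 2 * Real.sqrt ((2 * N : ℕ) : ℝ) := by
    rw [mul_comm, Finset.prod_sdiff hP]
    exact prod_gp_le (2 * N) _ (Finset.Subset.refl _) hN1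
  have h5 : 0 ≤ (∏ p ∈ P, (1 + gp p)) * ∏ p ∈ OP (2 * N) \ P, (1 + gp p) := by
    apply mul_nonneg hA0
    apply Finset.prod_nonneg
    intro p hp
    have := gp_nonneg (mem_OP.1 (Finset.sdiff_subset hp)).1
    linarith
  calc 2 * C₂ * ((∏ p ∈ P, (1 + gp p)) *
        ∑ t ∈ (OP (2 * N) \ P).powerset, (∏ p ∈ t, gp p) * cc X W (∏ p ∈ t, p))
      ≤ 2 * C₂ * ((∏ p ∈ P, (1 + gp p)) * (Sn X W * (MPhi X / (2 * W) * ∏ p ∈ OP (2 * N) \ P, (1 + gp p / p) +
          5 * ∏ p ∈ OP (2 * N) \ P, (1 + gp p)))) := by gcongr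
    _ = Sn X W * (MPhi X / W * ((∏ p ∈ P, (1 + gp p)) * (C₂ * ∏ p ∈ OP (2 * N) \ P, (1 + gp p / p))) +
          10 * (C₂ * ((∏ p ∈ P, (1 + gp p)) * ∏ p ∈ OP (2 * N) \ P, (1 + gp p)))) := by
        field_simp
        ring
    _ ≤ Sn X W * (MPhi X / W * ((∏ p ∈ P, (1 + gp p)) * ∏ p ∈ P, (1 - 1 / ((p : ℝ) - 1) ^ 2)) +
          10 * (1 * (2 * Real.sqrt ((2 * N : ℕ) : ℝ)))) := by
        have := C2_le_one
        gcongr
    _ = _ := by rw [h3]; ring

/-- **lower bound for the sum of the singular series** -/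
theorem tot_ge (X : ℝ) (hX : 4 ≤ X) {P : Finset ℕ} (hP : P ⊆ OP (2 * ⌊3 * X⌋₊)) (z : ℕ) (hz : 2 ≤ z)
    (hzN : z ≤ 2 * ⌊3 * X⌋₊) (hPz : ∀ p ∈ P, z < p)
    (hWX : (((∏ p ∈ P, p) * (2 * ∏ p ∈ OP z, p) : ℕ) : ℝ) ≤ X)
    (hpos : 20 * Real.sqrt z ≤ MPhi X / (∏ p ∈ P, p : ℕ) * (1 - 1 / z)) :
    Sn X (∏ p ∈ P, p) * (RW P * (MPhi X / (∏ p ∈ P, p : ℕ) * (1 - 1 / z) - 20 * Real.sqrt z)) ≤
      tot X (∏ p ∈ P, p) := by
  classical
  set N := ⌊3 * X⌋₊ with hN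
  set W := ∏ p ∈ P, p with hW
  have hW0 : 0 < W := prod_pos' hP
  have hWr : (0 : ℝ) < W := by exact_mod_cast hW0
  have hzr : (2 : ℝ) ≤ z := by exact_mod_cast hz
  rw [tot_eq2 X hP]
  have hS := Sn_nonneg X W
  have hC := C2_nonneg
  have hA0 : 0 ≤ ∏ p ∈ P, (1 + gp p) := Finset.prod_nonneg fun p hp => by
    have := gp_nonneg (mem_OP.1 (hP hp)).1
    linarith
  have hOz : OP z ⊆ OP (2 * N) := by
    intro p hp
    obtain ⟨h1, h2, h3⟩ := mem_OP.1 hp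
    exact mem_OP.2 ⟨h1, by omega, h3⟩
  have hOz2 : OP z ⊆ OP (2 * N) \ P := by
    intro p hp
    rw [Finset.mem_sdiff]
    refine ⟨hOz hp, fun h => ?_⟩
    have := hPz p h
    have := (mem_OP.1 hp).2.1
    omega
  have h1 : Sn X W * (MPhi X / (2 * W) * ∏ p ∈ OP z, (1 + gp p / p) - 5 * ∏ p ∈ OP z, (1 + gp p)) ≤
      ∑ t ∈ (OP (2 * N) \ P).powerset, (∏ p ∈ t, gp p) * cc X W (∏ p ∈ t, p) := by
    have hsub : (OP z).powerset ⊆ (OP (2 * N) \ P).powerset := Finset.powerset_mono.2 hOz2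
    refine le_trans ?_ (Finset.sum_le_sum_of_subset_of_nonneg hsub fun t ht _ => mul_nonneg
      (Finset.prod_nonneg fun p hp => gp_nonneg
        (mem_OP.1 (Finset.sdiff_subset (mem_powerset.1 ht hp))).1) (cc_nonneg _ _ _))
    rw [← sum_prod_eq (OP z) (Finset.Subset.refl _), Finset.prod_one_add (f := gp), mul_sub, Finset.mul_sum,
      ← mul_assoc, Finset.mul_sum, ← Finset.sum_sub_distrib]
    apply Finset.sum_le_sum
    intro t ht
    have ht' := mem_powerset.1 ht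
    have hto : t ⊆ OP (2 * N) := ht'.trans hOz
    have hg : 0 ≤ ∏ p ∈ t, gp p := Finset.prod_nonneg fun p hp => gp_nonneg (mem_OP.1 (hto hp)).1
    have hco : Nat.Coprime W (2 * ∏ p ∈ t, p) := by
      refine Nat.Coprime.mul_right (prod_odd hP).symm (prod_cop hP hto ?_)
      rw [Finset.disjoint_left]
      intro p h5 h6
      have := hPz p h5
      have := (mem_OP.1 (ht' h6)).2.1
      omega
    have hle : ((W * (2 * ∏ p ∈ t, p) : ℕ) : ℝ) ≤ X := by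
      refine le_trans ?_ hWX
      have : ∏ p ∈ t, p ≤ ∏ p ∈ OP z, p := by
        apply Finset.prod_le_prod_of_subset_of_one_le' ht'
        intro p hp _
        exact (mem_OP.1 hp).2.2.one_lt.le
      exact_mod_cast Nat.mul_le_mul_left _ (Nat.mul_le_mul_left _ this)
    have h2 := cc_ge X hX W (∏ p ∈ t, p) hW0 (prod_pos' hto) hco hle
    refine le_trans (le_of_eq ?_) (mul_le_mul_of_nonneg_left h2 hg)
    push_cast; ring
  have hB0 : 0 ≤ ∏ p ∈ OP z, (1 + gp p / p) := by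
    apply Finset.prod_nonneg
    intro p hp
    have := gp_nonneg (mem_OP.1 hp).1
    positivity
  have hM := MPhi_nonneg X
  have h2 : 1 - 1 / (z : ℝ) ≤ C₂ * ∏ p ∈ OP z, (1 + gp p / p) := by
    have h3 := mul_le_mul_of_nonneg_right (Pool.Agent.W93.GB.C2_ge z hz) hB0
    refine le_trans (le_of_eq ?_) h3
    rw [Pz_OP, mul_right_comm, ← Finset.prod_mul_distrib,
      Finset.prod_congr rfl fun p hp => loc_one (mem_OP.1 hp).1]
    simp
  have h4 : ∏ p ∈ OP z, (1 + gp p) ≤ 2 * Real.sqrt z := prod_gp_le z _ (Finset.Subset.refl _) (by omega)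
  have h5 : RW P ≤ ∏ p ∈ P, (1 + gp p) := by
    unfold RW
    apply Finset.prod_le_prod
    · intro p hp
      have h : (3 : ℝ) ≤ p := by exact_mod_cast (mem_OP.1 (hP hp)).1
      apply div_nonneg <;> linarith
    · intro p hp
      have h : (3 : ℝ) ≤ p := by exact_mod_cast (mem_OP.1 (hP hp)).1
      unfold gp
      have e : 1 + 1 / ((p : ℝ) - 2) = (p - 1) / (p - 2) := by
        have : (p : ℝ) - 2 ≠ 0 := by linarith
        field_simp
        ring
      rw [e, div_le_div_iff₀ (by linarith) (by linarith)]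
      nlinarith
  have hK0 : 0 ≤ ∏ p ∈ OP z, (1 + gp p) := by
    apply Finset.prod_nonneg
    intro p hp
    have := gp_nonneg (mem_OP.1 hp).1
    linarith
  calc Sn X W * (RW P * (MPhi X / W * (1 - 1 / z) - 20 * Real.sqrt z))
      ≤ Sn X W * ((∏ p ∈ P, (1 + gp p)) * (MPhi X / W * (1 - 1 / z) - 20 * Real.sqrt z)) := by
        apply mul_le_mul_of_nonneg_left _ hS
        apply mul_le_mul_of_nonneg_right h5
        linarith
    _ ≤ Sn X W * ((∏ p ∈ P, (1 + gp p)) * (MPhi X / W * (C₂ * ∏ p ∈ OP z, (1 + gp p / p)) -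
          10 * (1 * ∏ p ∈ OP z, (1 + gp p)))) := by
        apply mul_le_mul_of_nonneg_left _ hS
        apply mul_le_mul_of_nonneg_left _ hA0
        have h6 := mul_le_mul_of_nonneg_left h2 (show 0 ≤ MPhi X / W by positivity)
        linarith
    _ ≤ Sn X W * ((∏ p ∈ P, (1 + gp p)) * (MPhi X / W * (C₂ * ∏ p ∈ OP z, (1 + gp p / p)) -
          10 * (C₂ * ∏ p ∈ OP z, (1 + gp p)))) := by
        have := C2_le_one
        gcongr
    _ = 2 * C₂ * ((∏ p ∈ P, (1 + gp p)) * (Sn X W * (MPhi X / (2 * W) * ∏ p ∈ OP z, (1 + gp p / p) -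
          5 * ∏ p ∈ OP z, (1 + gp p)))) := by
        field_simp
        ring
    _ ≤ _ := by gcongr

end Pool.Agent.X25.GM
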