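import Pool.Agent.X25.GM.Cc

/-! Primes `v + h` and `u - h`, where `u, v` are multiples of `W`. -/

set_option autoImplicit false

open Finset Filter Topology
open Pool.Agent.H378R2 Pool.Agent.H510R2.Maier Pool.Agent.X30.MR Pool.Agent.X30.MG

namespace Pool.Agent.X25.GM

noncomputable def Ap (X : ℝ) (W h : ℕ) : ℝ := ∑ v ∈ Icc 1 ⌊3 * X⌋₊, nu X W 0 v * th (v + h)
noncomputable def Am (X : ℝ) (W h : ℕ) : ℝ := ∑ u ∈ Icc 1 ⌊3 * X⌋₊, nu X W 0 u * th (u - h)

theorem th_prime {n : ℕ} (h : n.Prime) : th n = Real.log n := by unfold th; rw [if_pos h]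
theorem th_not {n : ℕ} (h : ¬ n.Prime) : th n = 0 := by unfold th; rw [if_neg h]

theorem Ap_cop (X : ℝ) (hX : 4 ≤ X) (W h : ℕ) (hh : (h : ℝ) ≤ X / 2) (E : ℝ) (hE : |EPhi X W h| ≤ E) :
    |Ap X W h - LPhi X * (1 / (Nat.totient W : ℝ))| ≤
      E + (4 * h * Real.log (4 * X) + 4 * Real.sqrt X * Real.log (4 * X)) := by
  have a1 := shift_bound X hX W 0 h hh (fun _ => (1 : ℝ)) 1 (fun _ => by simp)
  simp only [mul_one, one_mul, zero_add] at a1
  rw [EPhi_eq, Finset.sum_filter] at hE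
  unfold Ap
  rw [abs_le] at a1 hE ⊢
  constructor
  · linarith [a1.1, hE.1]
  · linarith [a1.2, hE.2]

theorem Am_eq (X : ℝ) (hX : 4 ≤ X) (W h : ℕ) : Am X W h = ∑ m ∈ Icc 1 ⌊3 * X⌋₊, nu X W 0 (m + h) * th m := by
  classical
  set N := ⌊3 * X⌋₊ with hN
  unfold Am
  have hz : ∀ n : ℕ, N < n → nu X W 0 n = 0 := by
    intro n hn
    apply nu_eq_zero (by linarith)
    rintro ⟨-, h2⟩
    have h3 : 3 * X < n := Nat.lt_of_floor_lt hn
    linarith
  have e1 : ∑ u ∈ Icc 1 N, nu X W 0 u * th (u - h) = ∑ u ∈ Icc (1 + h) (N + h), nu X W 0 u * th (u - h) := by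
    have s1 : ∑ u ∈ Icc 1 N, nu X W 0 u * th (u - h) = ∑ u ∈ Icc 1 (N + h), nu X W 0 u * th (u - h) := by
      apply Finset.sum_subset
      · intro n hn
        rw [Finset.mem_Icc] at hn ⊢
        omega
      · intro n hn hn'
        rw [Finset.mem_Icc] at hn hn'
        rw [hz n (by omega), zero_mul]
    have s2 : ∑ u ∈ Icc (1 + h) (N + h), nu X W 0 u * th (u - h) = ∑ u ∈ Icc 1 (N + h), nu X W 0 u * th (u - h) := by
      apply Finset.sum_subset
      · intro n hn
        rw [Finset.mem_Icc] at hn ⊢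
        omega
      · intro n hn hn'
        rw [Finset.mem_Icc] at hn hn'
        have : n - h = 0 := by omega
        rw [this, th_not Nat.not_prime_zero, mul_zero]
    rw [s1, s2]
  rw [← hN, e1, ← Finset.image_add_right_Icc, Finset.sum_image (fun a _ b _ h => Nat.add_right_cancel h)]
  refine Finset.sum_congr rfl fun n _ => ?_
  rw [Nat.add_sub_cancel]

theorem Am_cop (X : ℝ) (hX : 4 ≤ X) (W h b : ℕ) (hb : W ∣ b + h) (hh : (h : ℝ) ≤ X / 2) (E : ℝ)
    (hE : |EPhi X W b| ≤ E) :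
    |Am X W h - LPhi X * (1 / (Nat.totient W : ℝ))| ≤
      E + (4 * h * Real.log (4 * X) + 4 * Real.sqrt X * Real.log (4 * X)) := by
  have a1 := shift_bound X hX W b 0 (by push_cast; linarith) (fun _ => (1 : ℝ)) 1 (fun _ => by simp)
  simp only [mul_one, one_mul, add_zero, Nat.cast_zero, mul_zero, zero_mul, zero_add] at a1
  rw [EPhi_eq, Finset.sum_filter] at hE
  rw [Am_eq X hX]
  set N := ⌊3 * X⌋₊ with hN
  have hX0 : 0 < X := by linarith
  have hNle : (N : ℝ) ≤ 3 * X := Nat.floor_le (by linarith)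
  have hl : 0 ≤ Real.log (4 * X) := Real.log_nonneg (by linarith)
  have hiff : ∀ m : ℕ, m + h ≡ 0 [MOD W] ↔ m ≡ b [MOD W] := by
    intro m
    have h0 : b + h ≡ 0 [MOD W] := (Nat.modEq_zero_iff_dvd).2 hb
    constructor
    · intro h1
      exact Nat.ModEq.add_right_cancel' h (h1.trans h0.symm)
    · intro h1
      exact (Nat.ModEq.add_right h h1).trans h0
  have key : |∑ m ∈ Icc 1 N, nu X W 0 (m + h) * th m - ∑ m ∈ Icc 1 N, nu X W b m * th m| ≤
      4 * h * Real.log (4 * X) := by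
    rw [← Finset.sum_sub_distrib]
    refine (Finset.abs_sum_le_sum_abs _ _).trans ?_
    have h1 : ∀ m ∈ Icc 1 N, |nu X W 0 (m + h) * th m - nu X W b m * th m| ≤ h / X * Real.log (4 * X) := by
      intro m hm
      rw [Finset.mem_Icc] at hm
      rw [← sub_mul, abs_mul]
      have h2 : |nu X W 0 (m + h) - nu X W b m| ≤ h / X := by
        unfold nu
        by_cases h3 : m ≡ b [MOD W]
        · rw [if_pos ((hiff m).2 h3), if_pos h3]
          refine (Phi_lip (by positivity) (by positivity)).trans ?_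
          rw [← sub_div, abs_div, abs_of_pos hX0]
          apply div_le_div_of_nonneg_right _ hX0.le
          push_cast
          rw [show (m : ℝ) + h - m = h by ring, abs_of_nonneg (Nat.cast_nonneg _)]
        · rw [if_neg (fun h4 => h3 ((hiff m).1 h4)), if_neg h3, sub_zero, abs_zero]
          positivity
      have h3 : |th m| ≤ Real.log (4 * X) := by
        by_cases hp : m.Prime
        · rw [th_prime hp, abs_of_nonneg (Real.log_natCast_nonneg m)]
          apply Real.log_le_log (by exact_mod_cast hp.pos)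
          have : (m : ℝ) ≤ N := by exact_mod_cast hm.2
          linarith
        · rw [th_not hp, abs_zero]; exact hl
      exact mul_le_mul h2 h3 (abs_nonneg _) (by positivity)
    refine (Finset.sum_le_sum h1).trans ?_
    rw [Finset.sum_const, Nat.card_Icc, Nat.add_sub_cancel, nsmul_eq_mul]
    calc (N : ℝ) * (h / X * Real.log (4 * X)) ≤ (4 * X) * (h / X * Real.log (4 * X)) := by
          apply mul_le_mul_of_nonneg_right (by linarith) (by positivity)
      _ = 4 * h * Real.log (4 * X) := by field_simp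
  rw [abs_le] at a1 hE key ⊢
  constructor
  · linarith [a1.1, hE.1, key.1]
  · linarith [a1.2, hE.2, key.2]

theorem Ap_zero (X : ℝ) (hX : 0 < X) (W h : ℕ) (hW : ∀ p : ℕ, p.Prime → p ∣ W → (p : ℝ) ≤ X / 2)
    (hc : ¬ h.Coprime W) : Ap X W h = 0 := by
  unfold Ap
  apply Finset.sum_eq_zero
  intro v _
  by_cases hv : X < v ∧ (v : ℝ) < 3 * X
  · by_cases hp : (v + h).Prime
    · unfold nu
      rw [if_neg, zero_mul]
      intro hmod
      obtain ⟨p, hpp, hp1, hp2⟩ := Nat.Prime.not_coprime_iff_dvd.1 hc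
      have h1 : p ∣ v := hp2.trans ((Nat.modEq_zero_iff_dvd).1 hmod)
      have h2 : p = v + h := (Nat.prime_dvd_prime_iff_eq hpp hp).1 (dvd_add h1 hp1)
      have h3 := hW p hpp hp2
      rw [h2] at h3
      push_cast at h3
      have : (0 : ℝ) ≤ h := Nat.cast_nonneg _
      linarith [hv.1]
    · rw [th_not hp, mul_zero]
  · rw [nu_eq_zero hX hv, zero_mul]

theorem Am_zero (X : ℝ) (hX : 0 < X) (W h : ℕ) (hh : (h : ℝ) ≤ X / 2)
    (hW : ∀ p : ℕ, p.Prime → p ∣ W → (p : ℝ) ≤ X / 2)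
    (hc : ¬ h.Coprime W) : Am X W h = 0 := by
  unfold Am
  apply Finset.sum_eq_zero
  intro u _
  by_cases hu : X < u ∧ (u : ℝ) < 3 * X
  · by_cases hp : (u - h).Prime
    · unfold nu
      rw [if_neg, zero_mul]
      intro hmod
      obtain ⟨p, hpp, hp1, hp2⟩ := Nat.Prime.not_coprime_iff_dvd.1 hc
      have h1 : p ∣ u := hp2.trans ((Nat.modEq_zero_iff_dvd).1 hmod)
      have h2 : p = u - h := (Nat.prime_dvd_prime_iff_eq hpp hp).1 (Nat.dvd_sub h1 hp1)
      have h3 := hW p hpp hp2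
      have h4 : h ≤ u := by
        have : (h : ℝ) ≤ u := by linarith [hu.1]
        exact_mod_cast this
      rw [h2, Nat.cast_sub h4] at h3
      linarith [hu.1]
    · rw [th_not hp, mul_zero]
  · rw [nu_eq_zero hX hu, zero_mul]

set_option maxHeartbeats 4000000 in
theorem cls (A : ℕ) (ε : ℝ) (hε : 0 < ε) (hε1 : ε ≤ 1) (Z : ℕ) : ∀ᶠ X : ℝ in atTop,
    ∃ (ps : ℕ) (S : Finset ℕ), GoodP Z ps ∧ GoodS X S ∧
      ∀ P : Finset ℕ, P ⊆ PW X S ps → ∀ h : ℕ, (h : ℝ) ≤ (Real.log X) ^ A →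
        (h.Coprime (∏ p ∈ P, p) →
          |Ap X (∏ p ∈ P, p) h - MPhi X / (∏ p ∈ P, p).totient| ≤ ε * (MPhi X / (∏ p ∈ P, p).totient) ∧
          |Am X (∏ p ∈ P, p) h - MPhi X / (∏ p ∈ P, p).totient| ≤ ε * (MPhi X / (∏ p ∈ P, p).totient)) ∧
        (¬ h.Coprime (∏ p ∈ P, p) → Ap X (∏ p ∈ P, p) h = 0 ∧ Am X (∏ p ∈ P, p) h = 0) := by
  obtain ⟨X1, hX1⟩ := bvrel_holds (A + 1) Z
  have hlogtop : Tendsto Real.log atTop atTop := Real.tendsto_log_atTop
  have ev1 := lphi_mphi (ε / 40) (by positivity)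
  have ev2 := hlogtop.eventually (ev_smallA (A + 1))
  have ev3 : ∀ᶠ X : ℝ in atTop, (Real.log X) ^ A ≤ X / 2 := by
    have h1 := (Real.isLittleO_pow_log_id_atTop (n := A)).bound (show (0 : ℝ) < 1 / 2 by norm_num)
    filter_upwards [h1, eventually_ge_atTop (1 : ℝ)] with X h2 h3
    rw [Real.norm_of_nonneg (pow_nonneg (Real.log_nonneg h3) A), id, Real.norm_of_nonneg (by linarith)] at h2
    linarith
  filter_upwards [ev1, ev2, ev3, eventually_ge_atTop X1, eventually_ge_atTop (40 : ℝ),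
    hlogtop.eventually_ge_atTop (2 : ℝ), hlogtop.eventually_ge_atTop (80 / ε)] with X h1 h2 h3 h5 h6 h7 h8
  obtain ⟨ps, S, hps, hS, hbv⟩ := hX1 X h5
  refine ⟨ps, S, hps, hS, fun P hPW h hh => ?_⟩
  have hXpos : 0 < X := by linarith
  obtain ⟨W2, hW2, hco, hWprod, hWDle⟩ := sub_decomp X S ps P hPW
  set W := ∏ p ∈ P, p with hW
  have hW0 : 0 < W := Finset.prod_pos fun p hp => (mem_PW.1 (hPW hp)).2.1.pos
  have hWr : (0 : ℝ) < W := by exact_mod_cast hW0
  have hφ0 : (0 : ℝ) < W.totient := by exact_mod_cast Nat.totient_pos.2 hW0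
  have hφ2 : (0 : ℝ) < W2.totient := by exact_mod_cast Nat.totient_pos.2 hW2
  have hφle : (W.totient : ℝ) ≤ W := by exact_mod_cast Nat.totient_le W
  have hWle : (W : ℝ) ≤ Real.exp (Real.log X / 700) := hWDle.trans (WW_le X (by linarith) S ps)
  set L := Real.log X with hL
  have hL0 : 0 < L := by linarith
  have hexpL : Real.exp L = X := Real.exp_log hXpos
  have hsqrt : Real.sqrt X = Real.exp (L / 2) := by
    rw [← hexpL, Real.sqrt_eq_iff_mul_self_eq (Real.exp_pos _).le (Real.exp_pos _).le, ← Real.exp_add]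
    congr 1; ring
  have hl4 : Real.log (4 * X) ≤ 2 * L := by
    rw [Real.log_mul (by norm_num) hXpos.ne']
    have : Real.log 4 ≤ 2 := by
      rw [show (4 : ℝ) = 2 ^ 2 by norm_num, Real.log_pow]
      have := Real.log_two_lt_d9
      push_cast; linarith
    linarith
  have hl40 : 0 ≤ Real.log (4 * X) := Real.log_nonneg (by linarith)
  set E0 := X / (((WW X S ps).totient : ℝ) * L ^ (A + 1)) with hE0
  have hEb0 := single_bound X (WW X S ps) ps (A + 1) (by linarith) E0 hbv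
  have hLX : L ≤ X := by
    have := Real.add_one_le_exp L
    linarith
  have hWp0 : ∀ p : ℕ, p.Prime → p ∣ WW X S ps → (p : ℝ) ≤ X / 2 := by
    intro p hp hpW
    have h8 := (mem_PW.1 ((prime_dvd_WW hp).1 hpW)).1
    have h9 : (p : ℝ) ≤ yy X := by exact_mod_cast h8
    have h10 : (yy X : ℝ) ≤ L / 1000 := Nat.floor_le (by positivity)
    linarith
  have hWp : ∀ p : ℕ, p.Prime → p ∣ W → (p : ℝ) ≤ X / 2 := fun p hp hd =>
    hWp0 p hp (hd.trans ⟨W2, hWprod.symm⟩)
  have hWp2 : ∀ p : ℕ, p.Prime → p ∣ W2 → (p : ℝ) ≤ X := fun p hp hd => by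
    have := hWp0 p hp (hd.trans ⟨W, by rw [← hWprod]; ring⟩)
    linarith
  set E := (W2.totient : ℝ) * E0 + 2 * Real.sqrt (3 * X) * Real.log (3 * X) with hE
  have hEb : ∀ b : ℕ, b.Coprime W → |EPhi X W b| ≤ E := by
    intro b hb
    apply EPhi_sub X (by linarith) W W2 hW0 hW2 hco hWp2 E0 _ b hb
    rw [hWprod]
    exact hEb0
  have hE0eq : (W2.totient : ℝ) * E0 = X / (W.totient * L ^ (A + 1)) := by
    rw [hE0, ← hWprod, Nat.totient_mul hco]
    push_cast
    field_simp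
  have hM1 := MPhi_ge X h6
  set M := MPhi X with hM
  have hM0 : 0 < M := by linarith
  have h3X : 2 * Real.sqrt (3 * X) * Real.log (3 * X) ≤ 4 * Real.sqrt X * Real.log (4 * X) := by
    have a1 : Real.sqrt (3 * X) ≤ 2 * Real.sqrt X := by
      rw [show 2 * Real.sqrt X = Real.sqrt (4 * X) by
        rw [Real.sqrt_mul (by norm_num), show (4 : ℝ) = 2 ^ 2 by norm_num, Real.sqrt_sq (by norm_num)]]
      exact Real.sqrt_le_sqrt (by linarith)
    have a2 : Real.log (3 * X) ≤ Real.log (4 * X) := Real.log_le_log (by linarith) (by linarith)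
    have a3 : 0 ≤ Real.log (3 * X) := Real.log_nonneg (by linarith)
    calc 2 * Real.sqrt (3 * X) * Real.log (3 * X) ≤ 2 * (2 * Real.sqrt X) * Real.log (4 * X) := by gcongr
      _ = _ := by ring
  have hLA : 1 ≤ L ^ A := one_le_pow₀ (by linarith)
  have herr : E + (4 * h * Real.log (4 * X) + 4 * Real.sqrt X * Real.log (4 * X)) ≤ ε / 2 * (M / W.totient) := by
    have hY0 : (0 : ℝ) ≤ h := Nat.cast_nonneg _
    have b1 : (W2.totient : ℝ) * E0 * L ^ (A + 1) = X / W.totient := by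
      rw [hE0eq]
      field_simp
    have b2 : L ^ (A + 1) * (4 * h * Real.log (4 * X) + 8 * Real.sqrt X * Real.log (4 * X)) ≤ X / W.totient := by
      rw [le_div_iff₀ hφ0]
      have hh' : (h : ℝ) ≤ L ^ (A + 1) := hh.trans (pow_le_pow_right₀ (by linarith) (by omega))
      calc L ^ (A + 1) * (4 * h * Real.log (4 * X) + 8 * Real.sqrt X * Real.log (4 * X)) * W.totient
          ≤ L ^ (A + 1) * (4 * L ^ (A + 1) * (2 * L) + 8 * Real.exp (L / 2) * (2 * L)) * Real.exp (L / 700) := by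
            rw [hsqrt]
            have := hφle.trans hWle
            gcongr
        _ ≤ X := by rw [← hexpL]; exact h2
    have b3 : X / W.totient ≤ 20 * (M / W.totient) := by
      rw [mul_div_assoc']
      gcongr
      linarith
    have b4 : (E + (4 * h * Real.log (4 * X) + 4 * Real.sqrt X * Real.log (4 * X))) * L ^ (A + 1) ≤
        40 * (M / W.totient) := by
      have b5 : E ≤ (W2.totient : ℝ) * E0 + 4 * Real.sqrt X * Real.log (4 * X) := by
        rw [hE]; linarith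
      calc (E + (4 * h * Real.log (4 * X) + 4 * Real.sqrt X * Real.log (4 * X))) * L ^ (A + 1)
          ≤ (((W2.totient : ℝ) * E0 + 4 * Real.sqrt X * Real.log (4 * X)) +
            (4 * h * Real.log (4 * X) + 4 * Real.sqrt X * Real.log (4 * X))) * L ^ (A + 1) := by gcongr
        _ = (W2.totient : ℝ) * E0 * L ^ (A + 1) +
            L ^ (A + 1) * (4 * h * Real.log (4 * X) + 8 * Real.sqrt X * Real.log (4 * X)) := by ring
        _ ≤ _ := by rw [b1]; linarith
    have b6 : 80 / ε ≤ L ^ (A + 1) := by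
      rw [pow_succ]
      have : L ≤ L ^ A * L := le_mul_of_one_le_left hL0.le hLA
      linarith
    have hE00 : 0 ≤ E := (abs_nonneg _).trans (hEb 1 (Nat.coprime_one_left W))
    have b7 : 0 ≤ E + (4 * h * Real.log (4 * X) + 4 * Real.sqrt X * Real.log (4 * X)) := by positivity
    have b8 := (mul_le_mul_of_nonneg_left b6 b7).trans b4
    have b9 : (E + (4 * h * Real.log (4 * X) + 4 * Real.sqrt X * Real.log (4 * X))) =
        (E + (4 * h * Real.log (4 * X) + 4 * Real.sqrt X * Real.log (4 * X))) * (80 / ε) * (ε / 80) := by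
      field_simp
    rw [b9]
    calc _ ≤ 40 * (M / W.totient) * (ε / 80) := by gcongr
      _ = _ := by ring
  have hLM : |LPhi X - M| ≤ ε / 2 * M := by
    refine h1.trans ?_
    nlinarith
  have hLM2 : |LPhi X * (1 / (W.totient : ℝ)) - M / W.totient| ≤ ε / 2 * (M / W.totient) := by
    have : LPhi X * (1 / (W.totient : ℝ)) - M / W.totient = (LPhi X - M) / W.totient := by ring
    rw [this, abs_div, abs_of_pos hφ0, ← mul_div_assoc]
    gcongr
  have hhX : (h : ℝ) ≤ X / 2 := hh.trans h3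
  constructor
  · intro hc
    constructor
    · have c1 := (Ap_cop X (by linarith) W h hhX E (hEb h hc)).trans herr
      rw [abs_le] at c1 hLM2 ⊢
      constructor <;> linarith [c1.1, c1.2, hLM2.1, hLM2.2]
    · have hb : ∃ b : ℕ, W ∣ b + h ∧ b.Coprime W := by
        refine ⟨W * h - h, ?_, ?_⟩
        · have : W * h - h + h = W * h := Nat.sub_add_cancel (Nat.le_mul_of_pos_left h hW0)
          rw [this]; exact Dvd.intro _ rfl
        · have e : W * h - h + h = W * h := Nat.sub_add_cancel (Nat.le_mul_of_pos_left h hW0)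
          have h10 : Nat.Coprime W (W * h - h) := by
            have h11 : Nat.gcd W (W * h - h) ∣ h := by
              have h12 : Nat.gcd W (W * h - h) ∣ W * h - h + h := by
                rw [e]; exact (Nat.gcd_dvd_left _ _).trans (Dvd.intro _ rfl)
              exact (Nat.dvd_add_right (Nat.gcd_dvd_right _ _)).1 h12
            have h13 : Nat.gcd W (W * h - h) ∣ Nat.gcd h W := Nat.dvd_gcd h11 (Nat.gcd_dvd_left _ _)
            rw [hc] at h13
            exact Nat.dvd_one.1 h13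
          exact h10.symm
      obtain ⟨b, hb1, hb2⟩ := hb
      have c1 := (Am_cop X (by linarith) W h b hb1 hhX E (hEb b hb2)).trans herr
      rw [abs_le] at c1 hLM2 ⊢
      constructor <;> linarith [c1.1, c1.2, hLM2.1, hLM2.2]
  · intro hc
    exact ⟨Ap_zero X hXpos W h hWp hc, Am_zero X hXpos W h hhX hWp hc⟩

/-- the sum over all pairs -/
noncomputable def TT (X : ℝ) (W Y : ℕ) : ℝ :=
  ∑ u ∈ Icc 1 ⌊3 * X⌋₊, ∑ v ∈ Icc 1 ⌊3 * X⌋₊, nu X W 0 u * nu X W 0 v * ∑ h ∈ Icc 1 Y, th (u - h) * th (v + h)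

theorem TT_eq (X : ℝ) (W Y : ℕ) : TT X W Y = ∑ h ∈ Icc 1 Y, Am X W h * Ap X W h := by
  have h1 : ∀ h ∈ Icc 1 Y, Am X W h * Ap X W h = ∑ u ∈ Icc 1 ⌊3 * X⌋₊, ∑ v ∈ Icc 1 ⌊3 * X⌋₊,
        nu X W 0 u * nu X W 0 v * (th (u - h) * th (v + h)) := by
    intro h _
    unfold Am Ap
    rw [Finset.sum_mul_sum]
    refine Finset.sum_congr rfl fun u _ => Finset.sum_congr rfl fun v _ => ?_
    ring
  rw [Finset.sum_congr rfl h1, Finset.sum_comm]
  unfold TT
  refine Finset.sum_congr rfl fun u _ => ?_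
  rw [Finset.sum_comm]
  refine Finset.sum_congr rfl fun v _ => ?_
  rw [Finset.mul_sum]

theorem TT_bounds (X : ℝ) (W Y : ℕ) (K ε : ℝ) (hK : 0 ≤ K) (hε : 0 ≤ ε) (hε1 : ε ≤ 1)
    (h1 : ∀ h ∈ Icc 1 Y, h.Coprime W → |Ap X W h - K| ≤ ε * K ∧ |Am X W h - K| ≤ ε * K)
    (h2 : ∀ h ∈ Icc 1 Y, ¬ h.Coprime W → Ap X W h = 0 ∧ Am X W h = 0) :
    (1 - ε) ^ 2 * (K ^ 2 * (VV W 0 Y : ℝ)) ≤ TT X W Y ∧ TT X W Y ≤ (1 + ε) ^ 2 * (K ^ 2 * (VV W 0 Y : ℝ)) := by
  classical
  rw [TT_eq]
  have hV : (VV W 0 Y : ℝ) = ∑ h ∈ Icc 1 Y, if h.Coprime W then (1 : ℝ) else 0 := by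
    unfold VV
    rw [← Finset.sum_filter, Finset.sum_const, nsmul_eq_mul, mul_one]
    congr 2
    apply Finset.filter_congr
    intro h _
    rw [zero_add]
  rw [hV, Finset.mul_sum, Finset.mul_sum, Finset.mul_sum]
  constructor
  · apply Finset.sum_le_sum
    intro h hh
    by_cases hc : h.Coprime W
    · obtain ⟨a1, a2⟩ := h1 h hh hc
      rw [abs_le] at a1 a2
      rw [if_pos hc, mul_one]
      have b1 : (1 - ε) * K ≤ Ap X W h := by linarith [a1.1]
      have b2 : (1 - ε) * K ≤ Am X W h := by linarith [a2.1]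
      have b0 : 0 ≤ (1 - ε) * K := mul_nonneg (by linarith) hK
      calc (1 - ε) ^ 2 * K ^ 2 = ((1 - ε) * K) * ((1 - ε) * K) := by ring
        _ ≤ Am X W h * Ap X W h := mul_le_mul b2 b1 b0 (b0.trans b2)
    · rw [if_neg hc, (h2 h hh hc).1]
      simp
  · apply Finset.sum_le_sum
    intro h hh
    by_cases hc : h.Coprime W
    · obtain ⟨a1, a2⟩ := h1 h hh hc
      rw [abs_le] at a1 a2
      rw [if_pos hc, mul_one]
      have b1 : Ap X W h ≤ (1 + ε) * K := by linarith [a1.2]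
      have b2 : Am X W h ≤ (1 + ε) * K := by linarith [a2.2]
      have b0 : 0 ≤ (1 - ε) * K := mul_nonneg (by linarith) hK
      have b3 : 0 ≤ Ap X W h := by linarith [a1.1]
      have b4 : 0 ≤ (1 + ε) * K := mul_nonneg (by linarith) hK
      calc Am X W h * Ap X W h ≤ ((1 + ε) * K) * ((1 + ε) * K) := mul_le_mul b2 b1 b3 b4
        _ = _ := by ring
    · rw [if_neg hc, (h2 h hh hc).1]
      simp

end Pool.Agent.X25.GM
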