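import Pool.Agent.X25.GM.Set
import Pool.Agent.X30.MaierI

/-! Extraction of the exceptional windows. -/

set_option autoImplicit false

open Finset Filter Topology
open Pool.Agent.H378R2 Pool.Agent.H510R2.Maier Pool.Agent.X30.MR Pool.Agent.X30.MG
open Pool.Agent.H560R3.GB (sing C₂)

namespace Pool.Agent.X25.GM

/-- the number of `h ≤ Y` with `u - h` and `v + h` prime -/
def rr (Y u v : ℕ) : ℕ := ((Icc 1 Y).filter (fun h => (u - h).Prime ∧ (v + h).Prime)).card

theorem rr_le (Y u v : ℕ) : rr Y u v ≤ Y := by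
  unfold rr
  refine (Finset.card_filter_le _ _).trans ?_
  simp

theorem rr_mono {Y Y' : ℕ} (h : Y ≤ Y') (u v : ℕ) : rr Y u v ≤ rr Y' u v :=
  Finset.card_le_card (Finset.filter_subset_filter _ (Finset.Icc_subset_Icc_right h))

theorem prod_gp_card (s : Finset ℕ) (hs : ∀ p ∈ s, 3 ≤ p) : ∏ p ∈ s, (1 + gp p) ≤ (s.card : ℝ) + 1 := by
  classical
  induction s using Finset.induction_on_max with
  | empty => simp
  | insert a s ha ih =>
    have hna : a ∉ s := fun h => lt_irrefl _ (ha a h)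
    rw [Finset.prod_insert hna, Finset.card_insert_of_notMem hna]
    have h1 := ih fun p hp => hs p (Finset.mem_insert_of_mem hp)
    have h2 : s ⊆ Icc 3 (a - 1) := by
      intro p hp
      rw [Finset.mem_Icc]
      refine ⟨hs p (Finset.mem_insert_of_mem hp), ?_⟩
      have := ha p hp
      omega
    have h3 := Finset.card_le_card h2
    rw [Nat.card_Icc] at h3
    have h4 : 3 ≤ a := hs a (Finset.mem_insert_self _ _)
    have h5 : s.card + 3 ≤ a := by omega
    have h6 : (s.card : ℝ) + 3 ≤ a := by exact_mod_cast h5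
    have h7 : 1 + gp a ≤ ((s.card : ℝ) + 2) / (s.card + 1) := by
      unfold gp
      have h8 : (0 : ℝ) ≤ s.card := Nat.cast_nonneg _
      have h9 : 1 / ((a : ℝ) - 2) ≤ 1 / ((s.card : ℝ) + 1) := one_div_le_one_div_of_le (by linarith) (by linarith)
      have e : ((s.card : ℝ) + 2) / (s.card + 1) = 1 + 1 / ((s.card : ℝ) + 1) := by field_simp; ring
      rw [e]
      linarith
    have h10 : 0 ≤ ∏ p ∈ s, (1 + gp p) := Finset.prod_nonneg fun p hp => by
      have := gp_nonneg (hs p (Finset.mem_insert_of_mem hp))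
      linarith
    calc (1 + gp a) * ∏ p ∈ s, (1 + gp p) ≤ (((s.card : ℝ) + 2) / (s.card + 1)) * ((s.card : ℝ) + 1) := by
          gcongr
      _ = (s.card : ℝ) + 2 := by field_simp
      _ = _ := by push_cast; ring

theorem sing_nonneg (m : ℕ) : 0 ≤ sing m := by
  rw [Pool.Agent.W93.GB.sing_eq]
  have := C2_nonneg
  have h : 0 ≤ ∏ p ∈ m.primeFactors.filter (fun p => 2 < p), Pool.Agent.W93.GB.dv p :=
    Finset.prod_nonneg fun p hp => by
      have := Pool.Agent.W93.GB.one_le_dv p (Finset.mem_filter.1 hp).2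
      linarith
  positivity

theorem sing_pos (m : ℕ) : 0 < sing m := by
  rw [Pool.Agent.W93.GB.sing_eq]
  have := Pool.Agent.W93.GB.C2_pos
  have h : 0 < ∏ p ∈ m.primeFactors.filter (fun p => 2 < p), Pool.Agent.W93.GB.dv p :=
    Finset.prod_pos fun p hp => by
      have := Pool.Agent.W93.GB.one_le_dv p (Finset.mem_filter.1 hp).2
      linarith
  positivity

theorem sing_le (m : ℕ) (hm : m ≠ 0) : sing m ≤ 4 * Real.log m + 2 := by
  classical
  rw [Pool.Agent.W93.GB.sing_eq]
  set s := m.primeFactors.filter (fun p => 2 < p) with hs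
  have hs3 : ∀ p ∈ s, 3 ≤ p := fun p hp => (Finset.mem_filter.1 hp).2
  have h1 : ∏ p ∈ s, Pool.Agent.W93.GB.dv p = ∏ p ∈ s, (1 + gp p) :=
    Finset.prod_congr rfl fun p hp => dv_eq (hs3 p hp)
  rw [h1]
  have h2 := prod_gp_card s hs3
  have h3 : (2 : ℝ) ^ s.card ≤ m := by
    have h4 : 2 ^ s.card ≤ ∏ p ∈ s, p := Finset.pow_card_le_prod s (fun p => p) 2 fun p hp => by
      have := hs3 p hp
      omega
    have h5 : ∏ p ∈ s, p ≤ m := by
      have h6 : ∏ p ∈ s, p ∣ ∏ p ∈ m.primeFactors, p := Finset.prod_dvd_prod_of_subset _ _ _ (Finset.filter_subset _ _)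
      exact Nat.le_of_dvd (Nat.pos_of_ne_zero hm) (h6.trans (Nat.prod_primeFactors_dvd m))
    exact_mod_cast h4.trans h5
  have h4 : (s.card : ℝ) * Real.log 2 ≤ Real.log m := by
    rw [← Real.log_pow]
    exact Real.log_le_log (by positivity) h3
  have h5 := Real.log_two_gt_d9
  have h6 : (s.card : ℝ) ≤ 2 * Real.log m := by
    have : (0 : ℝ) ≤ s.card := Nat.cast_nonneg _
    nlinarith
  have hC := C2_nonneg
  have hC1 := C2_le_one
  have h7 : 0 ≤ ∏ p ∈ s, (1 + gp p) := Finset.prod_nonneg fun p hp => by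
    have := gp_nonneg (hs3 p hp)
    linarith
  calc 2 * C₂ * ∏ p ∈ s, (1 + gp p) ≤ 2 * 1 * ((s.card : ℝ) + 1) := by gcongr
    _ ≤ 2 * 1 * (2 * Real.log m + 1) := by gcongr
    _ = _ := by ring

theorem rr_odd {X : ℝ} (hX : 40 ≤ X) {u v Y : ℕ} (hu : X < u) (hv : X < v) (hY : (Y : ℝ) ≤ X / 2)
    (h2 : ¬ 2 ∣ u + v) : rr Y u v = 0 := by
  unfold rr
  rw [Finset.card_eq_zero, Finset.filter_eq_empty_iff]
  rintro h hh ⟨h3, h4⟩
  rw [Finset.mem_Icc] at hh
  have hhY : (h : ℝ) ≤ Y := by exact_mod_cast hh.2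
  have hle : (h : ℝ) + 3 ≤ u := by linarith
  have hle' : h + 3 ≤ u := by exact_mod_cast hle
  have hv3 : (3 : ℝ) ≤ v := by linarith
  have hv3' : 3 ≤ v := by exact_mod_cast hv3
  have o1 := h3.odd_of_ne_two (by omega)
  have o2 := h4.odd_of_ne_two (by omega)
  obtain ⟨a, ha⟩ := o1
  obtain ⟨b, hb⟩ := o2
  apply h2
  exact ⟨a + b + 1, by omega⟩

theorem pw_le {X : ℝ} (hX : 40 ≤ X) {u v Y : ℕ} (hu : X < u) (hu' : (u : ℝ) < 3 * X) (hv : X < v)
    (hv' : (v : ℝ) < 3 * X) (hY : (Y : ℝ) ≤ X / 2) :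
    ∑ h ∈ Icc 1 Y, th (u - h) * th (v + h) ≤ (Real.log X + 2) ^ 2 * (rr Y u v : ℝ) := by
  have hX0 : 0 < X := by linarith
  have hl4 : Real.log (4 * X) ≤ Real.log X + 2 := by
    rw [Real.log_mul (by norm_num) hX0.ne']
    have : Real.log 4 ≤ 2 := by
      rw [show (4 : ℝ) = 2 ^ 2 by norm_num, Real.log_pow]
      have := Real.log_two_lt_d9
      push_cast; linarith
    linarith
  unfold rr
  rw [Finset.card_filter]
  push_cast
  rw [Finset.mul_sum]
  apply Finset.sum_le_sum
  intro h hh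
  rw [Finset.mem_Icc] at hh
  have hhY : (h : ℝ) ≤ Y := by exact_mod_cast hh.2
  by_cases h1 : (u - h).Prime
  · by_cases h2 : (v + h).Prime
    · rw [th_prime h1, th_prime h2, if_pos ⟨h1, h2⟩, mul_one, sq]
      have a1 : Real.log ((u - h : ℕ) : ℝ) ≤ Real.log X + 2 := by
        refine (Real.log_le_log (by exact_mod_cast h1.pos) ?_).trans hl4
        have : ((u - h : ℕ) : ℝ) ≤ u := by exact_mod_cast Nat.sub_le u h
        linarith
      have a2 : Real.log ((v + h : ℕ) : ℝ) ≤ Real.log X + 2 := by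
        refine (Real.log_le_log (by exact_mod_cast h2.pos) ?_).trans hl4
        push_cast
        linarith
      have a3 : 0 ≤ Real.log X + 2 := by
        have := Real.log_nonneg (show 1 ≤ X by linarith)
        linarith
      exact mul_le_mul a1 a2 (Real.log_natCast_nonneg _) a3
    · rw [th_not h2, mul_zero, if_neg (fun h => h2 h.2), mul_zero]
  · rw [th_not h1, zero_mul, if_neg (fun h => h1 h.1), mul_zero]

theorem pw_ge {X : ℝ} (hX : 40 ≤ X) {u v Y : ℕ} (hu : X < u) (hv : X < v) (hY : (Y : ℝ) ≤ X / 2) :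
    (Real.log X - 1) ^ 2 * (rr Y u v : ℝ) ≤ ∑ h ∈ Icc 1 Y, th (u - h) * th (v + h) := by
  have hX0 : 0 < X := by linarith
  have hl2 : Real.log X - 1 ≤ Real.log (X / 2) := by
    rw [Real.log_div hX0.ne' (by norm_num)]
    have := Real.log_two_lt_d9
    linarith
  have hl1 : 1 ≤ Real.log X := by
    rw [Real.le_log_iff_exp_le hX0]
    have := exp_one_lt_three'
    linarith
  unfold rr
  rw [Finset.card_filter]
  push_cast
  rw [Finset.mul_sum]
  apply Finset.sum_le_sum
  intro h hh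
  rw [Finset.mem_Icc] at hh
  have hhY : (h : ℝ) ≤ Y := by exact_mod_cast hh.2
  by_cases h1 : (u - h).Prime
  · by_cases h2 : (v + h).Prime
    · rw [th_prime h1, th_prime h2, if_pos ⟨h1, h2⟩, mul_one, sq]
      have hle : h ≤ u := by
        have : (h : ℝ) ≤ u := by linarith
        exact_mod_cast this
      have a1 : Real.log X - 1 ≤ Real.log ((u - h : ℕ) : ℝ) := by
        refine hl2.trans (Real.log_le_log (by linarith) ?_)
        rw [Nat.cast_sub hle]
        linarith
      have a2 : Real.log X - 1 ≤ Real.log ((v + h : ℕ) : ℝ) := by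
        refine hl2.trans (Real.log_le_log (by linarith) ?_)
        push_cast
        linarith [show (0 : ℝ) ≤ h from Nat.cast_nonneg _]
      have a3 : 0 ≤ Real.log X - 1 := by linarith
      exact mul_le_mul a1 a2 a3 (Real.log_natCast_nonneg _)
    · rw [th_not h2, mul_zero, if_neg (fun h => h2 h.2), mul_zero]
  · rw [th_not h1, zero_mul, if_neg (fun h => h1 h.1), mul_zero]

open Classical in
/-- from pairs to their half sums -/
theorem card_pairs (N : ℕ) (Q : ℕ → ℕ → Prop) :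
    ((Icc 1 N ×ˢ Icc 1 N).filter (fun q => 2 ∣ q.1 + q.2 ∧ Q q.1 q.2)).card ≤
      N * ((Icc 1 N).filter (fun n => ∃ u v, u + v = 2 * n ∧ Q u v)).card := by
  refine Finset.card_le_mul_card_image_of_maps_to (f := fun q : ℕ × ℕ => (q.1 + q.2) / 2) ?_ N ?_
  · rintro ⟨u, v⟩ hq
    obtain ⟨h1, h2, h3⟩ := Finset.mem_filter.1 hq
    obtain ⟨h4, h5⟩ := Finset.mem_product.1 h1
    rw [Finset.mem_Icc] at h4 h5
    simp only at h2 h3 h4 h5
    refine Finset.mem_filter.2 ⟨Finset.mem_Icc.2 ⟨?_, ?_⟩, u, v, ?_, h3⟩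
    · show 1 ≤ (u + v) / 2
      omega
    · show (u + v) / 2 ≤ N
      omega
    · show u + v = 2 * ((u + v) / 2)
      omega
  · intro n _
    calc _ ≤ (Icc 1 N).card := by
          apply Finset.card_le_card_of_injOn (fun q => q.1)
          · rintro ⟨u, v⟩ hq
            have := Finset.mem_filter.1 (Finset.mem_coe.1 hq)
            exact Finset.mem_coe.2 (Finset.mem_product.1 (Finset.mem_filter.1 this.1).1).1
          · rintro ⟨u, v⟩ hq ⟨u', v'⟩ hq' heq
            obtain ⟨h1, h2⟩ := Finset.mem_filter.1 (Finset.mem_coe.1 hq)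
            obtain ⟨h3, h4⟩ := Finset.mem_filter.1 (Finset.mem_coe.1 hq')
            have h5 := (Finset.mem_filter.1 h1).2.1
            have h6 := (Finset.mem_filter.1 h3).2.1
            simp only at h2 h4 h5 h6 heq
            have : v = v' := by omega
            rw [this, heq]
      _ = N := by simp

/-- sums over pairs with an indicator -/
theorem sum_ind (N : ℕ) (Q : ℕ → ℕ → Prop) [∀ u v, Decidable (Q u v)] (c : ℝ) :
    ∑ u ∈ Icc 1 N, ∑ v ∈ Icc 1 N, (if 2 ∣ u + v ∧ Q u v then c else 0) =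
      c * (((Icc 1 N ×ˢ Icc 1 N).filter (fun q => 2 ∣ q.1 + q.2 ∧ Q q.1 q.2)).card : ℝ) := by
  rw [← Finset.sum_product', ← Finset.sum_filter, Finset.sum_const, nsmul_eq_mul]
  ring

end Pool.Agent.X25.GM
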