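import Pool.Agent.X25.GM.Ext

/-! Maier's theorem for Goldbach's problem. -/

set_option autoImplicit false

open Finset Filter Topology
open Pool.Agent.H378R2 Pool.Agent.H510R2.Maier Pool.Agent.X30.MR Pool.Agent.X30.MG
open Pool.Agent.H560R3.GB (sing C₂)

namespace Pool.Agent.X25.GM

theorem num_fin (θ ε δ : ℝ) (hθ : 0 < θ) (hθε : θ < ε) (hθ1 : θ ≤ 1) (hδ : 0 < δ) :
    ∀ᶠ X : ℝ in atTop, ∀ (W : ℕ) (R : ℝ), 0 < W → (W : ℝ) ≤ Real.exp (3 / 2 * (Real.log X + 2) ^ θ) →
      (MPhi X / W) ^ 2 ≤ R →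
      3 * X * Real.exp (-(Real.log (3 * X)) ^ ε) ≤ δ / 8 * R / ((Real.log X + 2) ^ 2 * (3 * X)) := by
  have hlog : Tendsto Real.log atTop atTop := Real.tendsto_log_atTop
  have e1 := Pool.Agent.X30.MH.growth ((θ + ε) / 2) ε (δ / 38400) (by linarith) (by linarith) (by positivity) 2
  have e2 := Pool.Agent.X30.MI.two_ev θ hθ hθ1
  have e3 : ∀ᶠ L : ℝ in atTop, 2 ≤ L ^ ((ε - θ) / 2) := (tendsto_rpow_atTop (by linarith)).eventually_ge_atTop _
  filter_upwards [hlog.eventually e1, hlog.eventually e2, hlog.eventually e3, eventually_ge_atTop (40 : ℝ),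
    hlog.eventually_ge_atTop (2 : ℝ)] with X g1 g2 g3 g4 g5 W R hW hWle hR
  have hX0 : 0 < X := by linarith
  set L := Real.log X with hL
  have hL0 : 0 < L := by linarith
  have hWr : (0 : ℝ) < W := by exact_mod_cast hW
  have hM1 := MPhi_ge X g4
  have h1 : (W : ℝ) ≤ Real.exp (3 * L ^ θ) := hWle.trans (Real.exp_le_exp.2 g2)
  have h2 : (W : ℝ) ^ 2 ≤ Real.exp (6 * L ^ θ) := by
    calc (W : ℝ) ^ 2 ≤ Real.exp (3 * L ^ θ) ^ 2 := pow_le_pow_left₀ hWr.le h1 2
      _ = Real.exp (6 * L ^ θ) := by rw [sq, ← Real.exp_add]; congr 1; ring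
  have h3 : 6 * L ^ θ ≤ 3 * L ^ ((θ + ε) / 2) := by
    have e : L ^ ((θ + ε) / 2) = L ^ θ * L ^ ((ε - θ) / 2) := by
      rw [← Real.rpow_add hL0]; congr 1; ring
    rw [e]
    have : 0 < L ^ θ := Real.rpow_pos_of_pos hL0 _
    nlinarith
  have h4 : (W : ℝ) ^ 2 ≤ Real.exp (3 * L ^ ((θ + ε) / 2)) := h2.trans (Real.exp_le_exp.2 h3)
  have h5 : Real.exp (-(Real.log (3 * X)) ^ ε) ≤ Real.exp (-L ^ ε) := by
    apply Real.exp_le_exp.2
    have h6 : L ≤ Real.log (3 * X) := Real.log_le_log hX0 (by linarith)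
    have h7 := Real.rpow_le_rpow hL0.le h6 (show 0 ≤ ε by linarith)
    linarith
  have h6 : (X / 20 / W) ^ 2 ≤ R := by
    refine le_trans ?_ hR
    gcongr
  have h7 : (L + 2) ^ 2 ≤ 4 * L ^ 2 := by nlinarith
  calc 3 * X * Real.exp (-(Real.log (3 * X)) ^ ε) ≤ 3 * X * Real.exp (-L ^ ε) := by gcongr
    _ = X * (3 * Real.exp (-L ^ ε)) := by ring
    _ ≤ X * (δ / 38400 * (Real.exp (-(3 * L ^ ((θ + ε) / 2))) / L ^ 2)) := by gcongr
    _ = δ / 8 * (X ^ 2 / 400 / Real.exp (3 * L ^ ((θ + ε) / 2))) / (4 * L ^ 2 * (3 * X)) := by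
        rw [Real.exp_neg]
        field_simp
        ring
    _ ≤ δ / 8 * (X ^ 2 / 400 / (W : ℝ) ^ 2) / ((L + 2) ^ 2 * (3 * X)) := by gcongr
    _ = δ / 8 * (X / 20 / W) ^ 2 / ((L + 2) ^ 2 * (3 * X)) := by
        congr 2
        field_simp
        norm_num
    _ ≤ _ := by gcongr

theorem pt_many {X : ℝ} (hX : 40 ≤ X) (W u v Y : ℕ) (hY : (Y : ℝ) ≤ X / 2) (c q : ℝ) (hc : 0 ≤ c) (hq0 : 0 ≤ q)
    (hq : (Real.log X + 2) ^ 2 ≤ q * (Real.log X) ^ 2) (hL : 0 < Real.log X)
    [Decidable (2 ∣ u + v ∧ (X < u ∧ (u : ℝ) < 3 * X ∧ X < v ∧ (v : ℝ) < 3 * X ∧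
      c * sing (u + v) * Y / (Real.log X) ^ 2 ≤ rr Y u v))] :
    nu X W 0 u * nu X W 0 v * ∑ h ∈ Icc 1 Y, th (u - h) * th (v + h) ≤
      (if 2 ∣ u + v ∧ (X < u ∧ (u : ℝ) < 3 * X ∧ X < v ∧ (v : ℝ) < 3 * X ∧
        c * sing (u + v) * Y / (Real.log X) ^ 2 ≤ rr Y u v) then (Real.log X + 2) ^ 2 * Y else 0) +
      c * q * Y * (nu X W 0 u * nu X W 0 v * (if 2 ∣ u + v then sing (u + v) else 0)) := by
  have hX0 : 0 < X := by linarith
  have n1 := nu_nonneg X W 0 u
  have n2 := nu_nonneg X W 0 v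
  have m1 := nu_le_one X W 0 u
  have m2 := nu_le_one X W 0 v
  have hs := sing_nonneg (u + v)
  have hifs : 0 ≤ (if 2 ∣ u + v then sing (u + v) else 0) := by split_ifs <;> linarith
  have hr2 : 0 ≤ c * q * Y * (nu X W 0 u * nu X W 0 v * (if 2 ∣ u + v then sing (u + v) else 0)) := by
    positivity
  have hr1 : 0 ≤ (if 2 ∣ u + v ∧ (X < u ∧ (u : ℝ) < 3 * X ∧ X < v ∧ (v : ℝ) < 3 * X ∧
        c * sing (u + v) * Y / (Real.log X) ^ 2 ≤ rr Y u v) then (Real.log X + 2) ^ 2 * Y else 0 : ℝ) := by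
    split_ifs <;> positivity
  by_cases hu : X < u ∧ (u : ℝ) < 3 * X
  · by_cases hv : X < v ∧ (v : ℝ) < 3 * X
    · by_cases h2 : 2 ∣ u + v
      · have hp := pw_le hX hu.1 hu.2 hv.1 hv.2 hY
        by_cases hQ : c * sing (u + v) * Y / (Real.log X) ^ 2 ≤ rr Y u v
        · rw [if_pos ⟨h2, hu.1, hu.2, hv.1, hv.2, hQ⟩]
          have h3 : (rr Y u v : ℝ) ≤ Y := by exact_mod_cast rr_le Y u v
          have h4 : nu X W 0 u * nu X W 0 v ≤ 1 := by nlinarith
          have h5 : 0 ≤ ∑ h ∈ Icc 1 Y, th (u - h) * th (v + h) :=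
            Finset.sum_nonneg fun h _ => mul_nonneg (th_nonneg _) (th_nonneg _)
          calc nu X W 0 u * nu X W 0 v * ∑ h ∈ Icc 1 Y, th (u - h) * th (v + h)
              ≤ 1 * ((Real.log X + 2) ^ 2 * (rr Y u v : ℝ)) := mul_le_mul h4 hp h5 zero_le_one
            _ ≤ (Real.log X + 2) ^ 2 * Y := by
                rw [one_mul]; gcongr
            _ ≤ _ := le_add_of_nonneg_right hr2
        · push Not at hQ
          refine le_trans ?_ (le_add_of_nonneg_left hr1)
          rw [if_pos h2]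
          have h3 : (Real.log X + 2) ^ 2 * (rr Y u v : ℝ) ≤ c * q * Y * sing (u + v) := by
            calc (Real.log X + 2) ^ 2 * (rr Y u v : ℝ)
                ≤ (q * (Real.log X) ^ 2) * (c * sing (u + v) * Y / (Real.log X) ^ 2) :=
                  mul_le_mul hq hQ.le (Nat.cast_nonneg _) (by positivity)
              _ = _ := by field_simp
          calc nu X W 0 u * nu X W 0 v * ∑ h ∈ Icc 1 Y, th (u - h) * th (v + h)
              ≤ nu X W 0 u * nu X W 0 v * (c * q * Y * sing (u + v)) :=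
                mul_le_mul_of_nonneg_left (hp.trans h3) (mul_nonneg n1 n2)
            _ = _ := by ring
      · have hp := pw_le hX hu.1 hu.2 hv.1 hv.2 hY
        rw [rr_odd hX hu.1 hv.1 hY h2] at hp
        have h3 : nu X W 0 u * nu X W 0 v * ∑ h ∈ Icc 1 Y, th (u - h) * th (v + h) ≤ 0 := by
          apply mul_nonpos_of_nonneg_of_nonpos (mul_nonneg n1 n2)
          simpa using hp
        linarith
    · rw [nu_eq_zero (W := W) (r := 0) hX0 hv]
      simp only [mul_zero, zero_mul, add_zero]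
      exact hr1
  · rw [nu_eq_zero (W := W) (r := 0) hX0 hu]
    simp only [mul_zero, zero_mul, add_zero]
    exact hr1

theorem pt_few {X : ℝ} (hX : 40 ≤ X) (W u v Y : ℕ) (hY : (Y : ℝ) ≤ X / 2) (c q : ℝ) (hc : 0 ≤ c) (hc1 : c ≤ 1)
    (hq0 : 0 ≤ q) (hq1 : q ≤ 1)
    (hq : q * (Real.log X + 2) ^ 2 ≤ (Real.log X - 1) ^ 2) (hL : 0 < Real.log X)
    [Decidable (2 ∣ u + v ∧ (X < u ∧ (u : ℝ) < 3 * X ∧ X < v ∧ (v : ℝ) < 3 * X ∧
      rr Y u v ≤ c * sing (u + v) * Y / (Real.log X + 2) ^ 2))] :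
    c * q * Y * (nu X W 0 u * nu X W 0 v * (if 2 ∣ u + v then sing (u + v) else 0)) ≤
      nu X W 0 u * nu X W 0 v * ∑ h ∈ Icc 1 Y, th (u - h) * th (v + h) +
      (if 2 ∣ u + v ∧ (X < u ∧ (u : ℝ) < 3 * X ∧ X < v ∧ (v : ℝ) < 3 * X ∧
        rr Y u v ≤ c * sing (u + v) * Y / (Real.log X + 2) ^ 2) then Y * (4 * Real.log X + 14) else 0) := by
  have hX0 : 0 < X := by linarith
  have n1 := nu_nonneg X W 0 u
  have n2 := nu_nonneg X W 0 v
  have m1 := nu_le_one X W 0 u
  have m2 := nu_le_one X W 0 v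
  have hs := sing_nonneg (u + v)
  have h5 : 0 ≤ ∑ h ∈ Icc 1 Y, th (u - h) * th (v + h) :=
    Finset.sum_nonneg fun h _ => mul_nonneg (th_nonneg _) (th_nonneg _)
  have hr2 : 0 ≤ nu X W 0 u * nu X W 0 v * ∑ h ∈ Icc 1 Y, th (u - h) * th (v + h) := by positivity
  have hr1 : 0 ≤ (if 2 ∣ u + v ∧ (X < u ∧ (u : ℝ) < 3 * X ∧ X < v ∧ (v : ℝ) < 3 * X ∧
        rr Y u v ≤ c * sing (u + v) * Y / (Real.log X + 2) ^ 2) then Y * (4 * Real.log X + 14) else 0 : ℝ) := by
    split_ifs <;> positivity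
  by_cases hu : X < u ∧ (u : ℝ) < 3 * X
  · by_cases hv : X < v ∧ (v : ℝ) < 3 * X
    · by_cases h2 : 2 ∣ u + v
      · have hp := pw_ge hX hu.1 hv.1 hY
        rw [if_pos h2]
        by_cases hQ : rr Y u v ≤ c * sing (u + v) * Y / (Real.log X + 2) ^ 2
        · rw [if_pos ⟨h2, hu.1, hu.2, hv.1, hv.2, hQ⟩]
          refine le_trans ?_ (le_add_of_nonneg_left hr2)
          have h4 : nu X W 0 u * nu X W 0 v ≤ 1 := by nlinarith
          have h6 : c * q ≤ 1 := by nlinarith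
          have h7 : sing (u + v) ≤ 4 * Real.log X + 14 := by
            have huv : u + v ≠ 0 := by
              have : (0 : ℝ) < u := by linarith [hu.1]
              have : 0 < u := by exact_mod_cast this
              omega
            refine (sing_le (u + v) huv).trans ?_
            have h8 : Real.log ((u + v : ℕ) : ℝ) ≤ Real.log (8 * X) := by
              apply Real.log_le_log
              · exact_mod_cast Nat.pos_of_ne_zero huv
              · push_cast
                linarith [hu.2, hv.2]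
            rw [Real.log_mul (by norm_num) hX0.ne'] at h8
            have h9 : Real.log 8 ≤ 3 := by
              rw [show (8 : ℝ) = 2 ^ 3 by norm_num, Real.log_pow]
              have := Real.log_two_lt_d9
              push_cast; linarith
            linarith
          have hY0 : (0 : ℝ) ≤ Y := Nat.cast_nonneg _
          calc c * q * Y * (nu X W 0 u * nu X W 0 v * sing (u + v))
              ≤ 1 * Y * (1 * (4 * Real.log X + 14)) := by gcongr
            _ = _ := by ring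
        · push Not at hQ
          refine le_trans ?_ (le_add_of_nonneg_right hr1)
          have h3 : c * q * Y * sing (u + v) ≤ (Real.log X - 1) ^ 2 * (rr Y u v : ℝ) := by
            have hL2 : 0 < (Real.log X + 2) ^ 2 := by positivity
            calc c * q * Y * sing (u + v) = (q * (Real.log X + 2) ^ 2) * (c * sing (u + v) * Y / (Real.log X + 2) ^ 2) := by
                  field_simp
              _ ≤ _ := mul_le_mul hq hQ.le (by positivity) (by positivity)
          calc c * q * Y * (nu X W 0 u * nu X W 0 v * sing (u + v)) =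
                nu X W 0 u * nu X W 0 v * (c * q * Y * sing (u + v)) := by ring
            _ ≤ _ := mul_le_mul_of_nonneg_left (h3.trans hp) (mul_nonneg n1 n2)
      · rw [if_neg h2]
        simp only [mul_zero]
        linarith
    · rw [nu_eq_zero (W := W) (r := 0) hX0 hv]
      simp only [mul_zero, zero_mul, zero_add]
      exact hr1
  · rw [nu_eq_zero (W := W) (r := 0) hX0 hu]
    simp only [mul_zero, zero_mul, zero_add]
    exact hr1

end Pool.Agent.X25.GM
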