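import Pool.Agent.X25.GM.Fin

/-! Maier's theorem for Goldbach's problem: conclusion. -/

set_option autoImplicit false

open Finset Filter Topology
open Pool.Agent.H378R2 Pool.Agent.H510R2.Maier Pool.Agent.X30.MR Pool.Agent.X30.MG
open Pool.Agent.H560R3.GB (sing C₂)

namespace Pool.Agent.X25.GM

theorem numA (δ : ℝ) (h0 : 0 < δ) (h1 : δ ≤ 1 / 2) : (1 + δ / 8) * (1 + δ / 40) * (1 + δ / 40) ≤ 1 + δ / 4 := by
  have h2 : (1 + δ / 40) * (1 + δ / 40) ≤ 1 + δ / 16 := by nlinarith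
  have h3 : (1 + δ / 8) * (1 + δ / 16) ≤ 1 + δ / 4 := by nlinarith
  calc (1 + δ / 8) * (1 + δ / 40) * (1 + δ / 40) = (1 + δ / 8) * ((1 + δ / 40) * (1 + δ / 40)) := by ring
    _ ≤ (1 + δ / 8) * (1 + δ / 16) := by gcongr
    _ ≤ _ := h3

theorem numB (δ : ℝ) (h0 : 0 < δ) (h1 : δ ≤ 1 / 2) : 1 - δ / 4 ≤ (1 - δ / 8) * (1 - δ / 40) * (1 - δ / 40) := by
  have h2 : 1 - δ / 20 ≤ (1 - δ / 40) * (1 - δ / 40) := by nlinarith
  have h3 : 1 - δ / 4 ≤ (1 - δ / 8) * (1 - δ / 20) := by nlinarith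
  calc 1 - δ / 4 ≤ (1 - δ / 8) * (1 - δ / 20) := h3
    _ ≤ (1 - δ / 8) * ((1 - δ / 40) * (1 - δ / 40)) := mul_le_mul_of_nonneg_left h2 (by linarith)
    _ = _ := by ring

theorem numC (δ : ℝ) (h0 : 0 < δ) (h1 : δ ≤ 1 / 2) : (1 + δ / 16) * (1 + δ / 64) ≤ (1 + δ / 8) * (1 - δ / 64) := by
  nlinarith

/-- the exceptional windows -/
def Many (B δ : ℝ) (n : ℕ) : Prop := ∃ u v : ℕ, u + v = 2 * n ∧ u ≤ 3 * v ∧ v ≤ 3 * u ∧
  (1 + δ) * sing (2 * n) * (Real.log n) ^ (B - 2) ≤ (rr ⌊(Real.log n) ^ B⌋₊ u v : ℝ)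
def Few (B δ : ℝ) (n : ℕ) : Prop := ∃ u v : ℕ, u + v = 2 * n ∧ u ≤ 3 * v ∧ v ≤ 3 * u ∧
  (rr ⌊(Real.log n) ^ B⌋₊ u v : ℝ) ≤ (1 - δ) * sing (2 * n) * (Real.log n) ^ (B - 2)

theorem le3 {X : ℝ} {u v : ℕ} (hu : (u : ℝ) < 3 * X) (hv : X < v) : u ≤ 3 * v := by
  have : (u : ℝ) ≤ ((3 * v : ℕ) : ℝ) := by push_cast; linarith
  exact_mod_cast this

open Classical in
set_option maxHeartbeats 4000000 in
theorem many (B ε : ℝ) (hB : 2 ≤ B) (k : ℕ) (hk : 1 ≤ k) (hke : Even k) (hBk : B * be k ≤ 1 / 4)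
    (hBε : B * be k < ε) : ∃ δ : ℝ, 0 < δ ∧ ∀ᶠ X : ℝ in atTop,
      3 * X * Real.exp (-(Real.log (3 * X)) ^ ε) ≤ (((Icc 1 ⌊3 * X⌋₊).filter (Many B δ)).card : ℝ) := by
  obtain ⟨δ, hδ0, hδ1, hset⟩ := setup B (by linarith) k hk hBk
  have hB0 : 0 < B := by linarith
  have hθ0 : 0 < B * be k := mul_pos hB0 (be_pos k)
  refine ⟨δ / 16, by positivity, ?_⟩
  have hlog : Tendsto Real.log atTop atTop := Real.tendsto_log_atTop
  set A : ℕ := ⌈B⌉₊ with hA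
  have hBA : B ≤ A := Nat.le_ceil B
  have e1 := num_fin (B * be k) ε δ hθ0 hBε (by linarith) hδ0
  have e2 := Pool.Agent.X30.MI.ratio_ev 2 (1 + δ / 40) (by linarith)
  have e3 := Pool.Agent.X30.MI.ratio_ev (B - 2) (1 + δ / 64) (by linarith)
  have e5 : ∀ᶠ L : ℝ in atTop, 64 / δ ≤ L ^ B := (tendsto_rpow_atTop hB0).eventually_ge_atTop _
  have e6 : ∀ᶠ X : ℝ in atTop, (Real.log X) ^ A ≤ X / 2 := by
    have h1 := (Real.isLittleO_pow_log_id_atTop (n := A)).bound (show (0 : ℝ) < 1 / 2 by norm_num)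
    filter_upwards [h1, eventually_ge_atTop (1 : ℝ)] with X h2 h3
    rw [Real.norm_of_nonneg (pow_nonneg (Real.log_nonneg h3) A), id, Real.norm_of_nonneg (by linarith)] at h2
    linarith
  filter_upwards [hset, e1, hlog.eventually e2, hlog.eventually e3, hlog.eventually e5,
    eventually_ge_atTop (40 : ℝ), hlog.eventually_ge_atTop (2 : ℝ), e6] with X g1 g2 g3 g4 g5 g6 g7 g8
  have hX0 : 0 < X := by linarith
  set L := Real.log X with hL
  have hL0 : 0 < L := by linarith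
  set Y := ⌊L ^ B⌋₊ with hY
  have hLL : L ^ B ≤ (L + 2) ^ B := Real.rpow_le_rpow hL0.le (by linarith) hB0.le
  have hYu' : (Y : ℝ) ≤ L ^ B := Nat.floor_le (by positivity)
  have hYu : (Y : ℝ) ≤ (L + 2) ^ B := hYu'.trans hLL
  have hYl : L ^ B - 1 ≤ Y := (Nat.sub_one_lt_floor _).le
  have hYX : (Y : ℝ) ≤ X / 2 := by
    have : L ^ B ≤ L ^ (A : ℝ) := Real.rpow_le_rpow_of_exponent_le (by linarith) hBA
    rw [Real.rpow_natCast] at this
    linarith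
  have hYpos : (0 : ℝ) < Y := by
    have : 0 < 64 / δ := by positivity
    have h128 : 128 ≤ 64 / δ := by rw [le_div_iff₀ hδ0]; linarith
    linarith
  obtain ⟨W, R, hW0, hWle, hR, heven, -, ht1, ht2⟩ := g1 Y hYl hYu
  have hT := heven hke
  have hR0 : 0 ≤ R := le_trans (sq_nonneg _) hR
  have hq : (L + 2) ^ 2 ≤ (1 + δ / 40) * L ^ 2 := by
    have := g3
    rwa [Real.rpow_two, Real.rpow_two] at this
  set N := ⌊3 * X⌋₊ with hN
  set Q : ℕ → ℕ → Prop := fun u v => X < u ∧ (u : ℝ) < 3 * X ∧ X < v ∧ (v : ℝ) < 3 * X ∧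
      (1 + δ / 8) * sing (u + v) * Y / L ^ 2 ≤ rr Y u v with hQ
  have hsum : TT X W Y ≤ (L + 2) ^ 2 * Y * (((Icc 1 N ×ˢ Icc 1 N).filter (fun q => 2 ∣ q.1 + q.2 ∧ Q q.1 q.2)).card : ℝ) +
      (1 + δ / 8) * (1 + δ / 40) * Y * tot X W := by
    rw [← sum_ind N Q]
    unfold TT tot
    rw [← hN, Finset.mul_sum, ← Finset.sum_add_distrib]
    apply Finset.sum_le_sum
    intro u _
    rw [Finset.mul_sum, ← Finset.sum_add_distrib]
    apply Finset.sum_le_sum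
    intro v _
    exact pt_many g6 W u v Y hYX (1 + δ / 8) (1 + δ / 40) (by linarith) (by linarith) hq hL0
  set C : ℝ := (((Icc 1 N ×ˢ Icc 1 N).filter (fun q => 2 ∣ q.1 + q.2 ∧ Q q.1 q.2)).card : ℝ) with hC
  have h1 : (1 + δ / 8) * (1 + δ / 40) * Y * tot X W ≤ (1 + δ / 4) * Y * R := by
    calc (1 + δ / 8) * (1 + δ / 40) * Y * tot X W ≤ (1 + δ / 8) * (1 + δ / 40) * Y * ((1 + δ / 40) * R) := by gcongr
      _ = ((1 + δ / 8) * (1 + δ / 40) * (1 + δ / 40)) * Y * R := by ring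
      _ ≤ _ := by
          have := numA δ hδ0 hδ1
          gcongr
  have h2 : δ / 4 * R ≤ (L + 2) ^ 2 * C := by
    have h3 : (Y : ℝ) * (δ / 4 * R) ≤ Y * ((L + 2) ^ 2 * C) := by linarith
    exact le_of_mul_le_mul_left h3 hYpos
  have h3 : C ≤ N * (((Icc 1 N).filter (fun n => ∃ u v, u + v = 2 * n ∧ Q u v)).card : ℝ) := by
    rw [hC, ← Nat.cast_mul]
    apply Nat.cast_le.2
    convert card_pairs N Q
  have hsub : (Icc 1 N).filter (fun n => ∃ u v, u + v = 2 * n ∧ Q u v) ⊆ (Icc 1 N).filter (Many B (δ / 16)) := by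
    intro n hn
    obtain ⟨hn1, u, v, huv, q1, q2, q3, q4, q5⟩ := Finset.mem_filter.1 hn
    refine Finset.mem_filter.2 ⟨hn1, u, v, huv, le3 q2 q3, le3 q4 q1, ?_⟩
    have hnr : (u : ℝ) + v = 2 * n := by exact_mod_cast huv
    obtain ⟨l1, l2⟩ := G.log_bounds hX0 (n := n) (by linarith) (by linarith)
    rw [← hL] at l1 l2
    have s0 : (rr Y u v : ℝ) ≤ rr ⌊(Real.log n) ^ B⌋₊ u v := by
      exact_mod_cast rr_mono (Nat.floor_le_floor (Real.rpow_le_rpow hL0.le l1 hB0.le)) u v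
    refine le_trans ?_ (q5.trans s0)
    rw [huv]
    have s1 : (Real.log n) ^ (B - 2) ≤ (1 + δ / 64) * L ^ (B - 2) := by
      refine le_trans ?_ g4
      exact Real.rpow_le_rpow (by linarith) l2 (by linarith)
    have s2 : L ^ B = L ^ 2 * L ^ (B - 2) := by
      rw [← Real.rpow_two, ← Real.rpow_add hL0]
      congr 1; ring
    have s3 : (1 - δ / 64) * L ^ B ≤ Y := by
      have h4 : 1 ≤ δ / 64 * L ^ B := by
        calc (1 : ℝ) = δ / 64 * (64 / δ) := by field_simp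
          _ ≤ _ := by gcongr
      linarith
    have s4 : (1 - δ / 64) * L ^ (B - 2) ≤ Y / L ^ 2 := by
      rw [le_div_iff₀ (by positivity)]
      calc (1 - δ / 64) * L ^ (B - 2) * L ^ 2 = (1 - δ / 64) * L ^ B := by rw [s2]; ring
        _ ≤ Y := s3
    have hs := sing_nonneg (2 * n)
    have hLp : 0 ≤ L ^ (B - 2) := Real.rpow_nonneg hL0.le _
    calc (1 + δ / 16) * sing (2 * n) * (Real.log n) ^ (B - 2)
        ≤ (1 + δ / 16) * sing (2 * n) * ((1 + δ / 64) * L ^ (B - 2)) := by gcongr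
      _ = ((1 + δ / 16) * (1 + δ / 64)) * (sing (2 * n) * L ^ (B - 2)) := by ring
      _ ≤ ((1 + δ / 8) * (1 - δ / 64)) * (sing (2 * n) * L ^ (B - 2)) :=
          mul_le_mul_of_nonneg_right (numC δ hδ0 hδ1) (mul_nonneg hs hLp)
      _ = (1 + δ / 8) * sing (2 * n) * ((1 - δ / 64) * L ^ (B - 2)) := by ring
      _ ≤ (1 + δ / 8) * sing (2 * n) * (Y / L ^ 2) := by gcongr
      _ = _ := by ring
  have h4 : (((Icc 1 N).filter (fun n => ∃ u v, u + v = 2 * n ∧ Q u v)).card : ℝ) ≤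
      (((Icc 1 N).filter (Many B (δ / 16))).card : ℝ) := by
    exact_mod_cast Finset.card_le_card hsub
  set S : ℝ := (((Icc 1 N).filter (Many B (δ / 16))).card : ℝ) with hS
  have hN3 : (N : ℝ) ≤ 3 * X := Nat.floor_le (by linarith)
  have h5 : δ / 8 * R ≤ S * ((L + 2) ^ 2 * (3 * X)) := by
    calc δ / 8 * R ≤ δ / 4 * R := by
          apply mul_le_mul_of_nonneg_right _ hR0
          linarith
      _ ≤ (L + 2) ^ 2 * C := h2
      _ ≤ (L + 2) ^ 2 * (N * (((Icc 1 N).filter (fun n => ∃ u v, u + v = 2 * n ∧ Q u v)).card : ℝ)) := by gcongr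
      _ ≤ (L + 2) ^ 2 * ((3 * X) * S) := by gcongr
      _ = _ := by ring
  refine (g2 W R hW0 hWle hR).trans ?_
  rw [div_le_iff₀ (by positivity)]
  exact h5

open Classical in
set_option maxHeartbeats 4000000 in
theorem few (B ε : ℝ) (hB : 2 ≤ B) (k : ℕ) (hk : 1 ≤ k) (hko : Odd k) (hBk : B * be k ≤ 1 / 4)
    (hBε : B * be k < ε) : ∃ δ : ℝ, 0 < δ ∧ ∀ᶠ X : ℝ in atTop,
      3 * X * Real.exp (-(Real.log (3 * X)) ^ ε) ≤ (((Icc 1 ⌊3 * X⌋₊).filter (Few B δ)).card : ℝ) := by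
  obtain ⟨δ, hδ0, hδ1, hset⟩ := setup B (by linarith) k hk hBk
  have hB0 : 0 < B := by linarith
  have hθ0 : 0 < B * be k := mul_pos hB0 (be_pos k)
  refine ⟨δ / 16, by positivity, ?_⟩
  have hlog : Tendsto Real.log atTop atTop := Real.tendsto_log_atTop
  set A : ℕ := ⌈B⌉₊ + 1 with hA
  have hBA : B + 1 ≤ A := by
    have := Nat.le_ceil B
    rw [hA]; push_cast; linarith
  have e1 := num_fin (B * be k) ε δ hθ0 hBε (by linarith) hδ0
  have e2 := Pool.Agent.X30.MI.ratio_ev 2 (1 / (1 - δ / 80)) (by rw [one_lt_div (by linarith)]; linarith)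
  have e2' : ∀ᶠ L : ℝ in atTop, 160 / δ ≤ L := eventually_ge_atTop _
  have e3 := Pool.Agent.X30.MI.ratio_ev (B - 2) ((1 - δ / 16) / (1 - δ / 8)) (by
    rw [one_lt_div (by linarith)]; linarith)
  have e5 : ∀ᶠ L : ℝ in atTop, (4 : ℝ) ≤ L ^ B := (tendsto_rpow_atTop hB0).eventually_ge_atTop _
  have e6 : ∀ᶠ X : ℝ in atTop, (Real.log X) ^ A ≤ X / 2 := by
    have h1 := (Real.isLittleO_pow_log_id_atTop (n := A)).bound (show (0 : ℝ) < 1 / 2 by norm_num)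
    filter_upwards [h1, eventually_ge_atTop (1 : ℝ)] with X h2 h3
    rw [Real.norm_of_nonneg (pow_nonneg (Real.log_nonneg h3) A), id, Real.norm_of_nonneg (by linarith)] at h2
    linarith
  have e7 : ∀ᶠ L : ℝ in atTop, (L + 2) ^ B ≤ L ^ A := by
    filter_upwards [eventually_ge_atTop (2 : ℝ), (eventually_ge_atTop ((2 : ℝ) ^ B))] with L h1 h2
    have hL0 : 0 < L := by linarith
    calc (L + 2) ^ B ≤ (2 * L) ^ B := Real.rpow_le_rpow (by linarith) (by linarith) hB0.le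
      _ = 2 ^ B * L ^ B := Real.mul_rpow (by norm_num) hL0.le
      _ ≤ L * L ^ B := by gcongr
      _ = L ^ (B + 1) := by rw [Real.rpow_add hL0, Real.rpow_one]; ring
      _ ≤ L ^ (A : ℝ) := Real.rpow_le_rpow_of_exponent_le (by linarith) hBA
      _ = L ^ A := Real.rpow_natCast _ _
  filter_upwards [hset, e1, hlog.eventually e2, hlog.eventually e3, hlog.eventually e5,
    eventually_ge_atTop (40 : ℝ), hlog.eventually_ge_atTop (2 : ℝ), e6, hlog.eventually e7,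
    hlog.eventually e2'] with X g1 g2 g3 g4 g5 g6 g7 g8 g9 g10
  have hX0 : 0 < X := by linarith
  set L := Real.log X with hL
  have hL0 : 0 < L := by linarith
  set Y := ⌊(L + 2) ^ B⌋₊ with hY
  have hLL : L ^ B ≤ (L + 2) ^ B := Real.rpow_le_rpow hL0.le (by linarith) hB0.le
  have hYu : (Y : ℝ) ≤ (L + 2) ^ B := Nat.floor_le (by positivity)
  have hYl : L ^ B - 1 ≤ Y := by
    have := Nat.sub_one_lt_floor ((L + 2) ^ B)
    linarith
  have hYX : (Y : ℝ) ≤ X / 2 := by linarith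
  have hYpos : (0 : ℝ) < Y := by linarith
  obtain ⟨W, R, hW0, hWle, hR, -, hodd, ht1, ht2⟩ := g1 Y hYl hYu
  have hT := hodd hko
  have hR0 : 0 ≤ R := le_trans (sq_nonneg _) hR
  have hq : (1 - δ / 40) * (L + 2) ^ 2 ≤ (L - 1) ^ 2 := by
    have h1 : (1 - δ / 80) * (L + 2) ^ 2 ≤ L ^ 2 := by
      have := g3
      rw [Real.rpow_two, Real.rpow_two] at this
      have h2 : 0 < 1 - δ / 80 := by linarith
      calc (1 - δ / 80) * (L + 2) ^ 2 ≤ (1 - δ / 80) * (1 / (1 - δ / 80) * L ^ 2) := by gcongr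
        _ = ((1 - δ / 80) / (1 - δ / 80)) * L ^ 2 := by ring
        _ = _ := by rw [div_self h2.ne', one_mul]
    have h2 : (1 - δ / 80) * L ^ 2 ≤ (L - 1) ^ 2 := by
      have h3 : 160 ≤ δ * L := by
        calc (160 : ℝ) = δ * (160 / δ) := by field_simp
          _ ≤ _ := by gcongr
      nlinarith
    have h3 : 1 - δ / 40 ≤ (1 - δ / 80) * (1 - δ / 80) := by nlinarith
    calc (1 - δ / 40) * (L + 2) ^ 2 ≤ ((1 - δ / 80) * (1 - δ / 80)) * (L + 2) ^ 2 := by gcongr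
      _ = (1 - δ / 80) * ((1 - δ / 80) * (L + 2) ^ 2) := by ring
      _ ≤ (1 - δ / 80) * L ^ 2 := mul_le_mul_of_nonneg_left h1 (by linarith)
      _ ≤ _ := h2
  set N := ⌊3 * X⌋₊ with hN
  set Q : ℕ → ℕ → Prop := fun u v => X < u ∧ (u : ℝ) < 3 * X ∧ X < v ∧ (v : ℝ) < 3 * X ∧
      rr Y u v ≤ (1 - δ / 8) * sing (u + v) * Y / (L + 2) ^ 2 with hQ
  have hsum : (1 - δ / 8) * (1 - δ / 40) * Y * tot X W ≤ TT X W Y +
      Y * (4 * L + 14) * (((Icc 1 N ×ˢ Icc 1 N).filter (fun q => 2 ∣ q.1 + q.2 ∧ Q q.1 q.2)).card : ℝ) := by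
    rw [← sum_ind N Q]
    unfold TT tot
    rw [← hN, Finset.mul_sum, ← Finset.sum_add_distrib]
    apply Finset.sum_le_sum
    intro u _
    rw [Finset.mul_sum, ← Finset.sum_add_distrib]
    apply Finset.sum_le_sum
    intro v _
    exact pt_few g6 W u v Y hYX (1 - δ / 8) (1 - δ / 40) (by linarith) (by linarith) (by linarith) (by linarith) hq hL0
  set C : ℝ := (((Icc 1 N ×ˢ Icc 1 N).filter (fun q => 2 ∣ q.1 + q.2 ∧ Q q.1 q.2)).card : ℝ) with hC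
  have h1 : (1 - δ / 4) * Y * R ≤ (1 - δ / 8) * (1 - δ / 40) * Y * tot X W := by
    have h0 : 0 ≤ (1 - δ / 8) * (1 - δ / 40) * (Y : ℝ) :=
      mul_nonneg (mul_nonneg (by linarith) (by linarith)) hYpos.le
    calc (1 - δ / 4) * Y * R ≤ ((1 - δ / 8) * (1 - δ / 40) * (1 - δ / 40)) * Y * R := by
          have := numB δ hδ0 hδ1
          gcongr
      _ = (1 - δ / 8) * (1 - δ / 40) * Y * ((1 - δ / 40) * R) := by ring
      _ ≤ _ := mul_le_mul_of_nonneg_left ht1 h0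
  have h2 : δ / 2 * R ≤ (4 * L + 14) * C := by
    have h3 : (Y : ℝ) * (δ / 2 * R) ≤ Y * ((4 * L + 14) * C) := by linarith
    exact le_of_mul_le_mul_left h3 hYpos
  have h3 : C ≤ N * (((Icc 1 N).filter (fun n => ∃ u v, u + v = 2 * n ∧ Q u v)).card : ℝ) := by
    rw [hC, ← Nat.cast_mul]
    apply Nat.cast_le.2
    convert card_pairs N Q
  have hsub : (Icc 1 N).filter (fun n => ∃ u v, u + v = 2 * n ∧ Q u v) ⊆ (Icc 1 N).filter (Few B (δ / 16)) := by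
    intro n hn
    obtain ⟨hn1, u, v, huv, q1, q2, q3, q4, q5⟩ := Finset.mem_filter.1 hn
    refine Finset.mem_filter.2 ⟨hn1, u, v, huv, le3 q2 q3, le3 q4 q1, ?_⟩
    have hnr : (u : ℝ) + v = 2 * n := by exact_mod_cast huv
    obtain ⟨l1, l2⟩ := G.log_bounds hX0 (n := n) (by linarith) (by linarith)
    rw [← hL] at l1 l2
    have s0 : (rr ⌊(Real.log n) ^ B⌋₊ u v : ℝ) ≤ rr Y u v := by
      exact_mod_cast rr_mono (Nat.floor_le_floor (Real.rpow_le_rpow (by linarith) l2 hB0.le)) u v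
    refine s0.trans (q5.trans ?_)
    rw [huv]
    have s1 : L ^ (B - 2) ≤ (Real.log n) ^ (B - 2) := Real.rpow_le_rpow (by linarith) l1 (by linarith)
    have s2 : (L + 2) ^ B = (L + 2) ^ 2 * (L + 2) ^ (B - 2) := by
      rw [← Real.rpow_two, ← Real.rpow_add (by linarith)]
      congr 1; ring
    have s4 : Y / (L + 2) ^ 2 ≤ (L + 2) ^ (B - 2) := by
      rw [div_le_iff₀ (by positivity)]
      calc (Y : ℝ) ≤ (L + 2) ^ B := hYu
        _ = _ := by rw [s2]; ring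
    have hs := sing_nonneg (2 * n)
    have hLp : 0 ≤ L ^ (B - 2) := Real.rpow_nonneg hL0.le _
    have s5 : (1 - δ / 8) * (L + 2) ^ (B - 2) ≤ (1 - δ / 16) * L ^ (B - 2) := by
      have h2 : 0 < 1 - δ / 8 := by linarith
      calc (1 - δ / 8) * (L + 2) ^ (B - 2) ≤ (1 - δ / 8) * ((1 - δ / 16) / (1 - δ / 8) * L ^ (B - 2)) := by gcongr
        _ = ((1 - δ / 8) / (1 - δ / 8)) * ((1 - δ / 16) * L ^ (B - 2)) := by ring
        _ = _ := by rw [div_self h2.ne', one_mul]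
    calc (1 - δ / 8) * sing (2 * n) * Y / (L + 2) ^ 2 = sing (2 * n) * ((1 - δ / 8) * (Y / (L + 2) ^ 2)) := by ring
      _ ≤ sing (2 * n) * ((1 - δ / 8) * (L + 2) ^ (B - 2)) := by
          apply mul_le_mul_of_nonneg_left _ hs
          exact mul_le_mul_of_nonneg_left s4 (by linarith)
      _ ≤ sing (2 * n) * ((1 - δ / 16) * L ^ (B - 2)) := by gcongr
      _ ≤ sing (2 * n) * ((1 - δ / 16) * (Real.log n) ^ (B - 2)) := by
          apply mul_le_mul_of_nonneg_left _ hs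
          exact mul_le_mul_of_nonneg_left s1 (by linarith)
      _ = _ := by ring
  have h4 : (((Icc 1 N).filter (fun n => ∃ u v, u + v = 2 * n ∧ Q u v)).card : ℝ) ≤
      (((Icc 1 N).filter (Few B (δ / 16))).card : ℝ) := by
    exact_mod_cast Finset.card_le_card hsub
  set S : ℝ := (((Icc 1 N).filter (Few B (δ / 16))).card : ℝ) with hS
  have hN3 : (N : ℝ) ≤ 3 * X := Nat.floor_le (by linarith)
  have hC0 : 0 ≤ C := Nat.cast_nonneg _
  have h5 : δ / 8 * R ≤ S * ((L + 2) ^ 2 * (3 * X)) := by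
    have h6 : 4 * L + 14 ≤ 4 * (L + 2) ^ 2 := by nlinarith
    calc δ / 8 * R = (δ / 2 * R) / 4 := by ring
      _ ≤ ((4 * L + 14) * C) / 4 := by gcongr
      _ ≤ ((4 * (L + 2) ^ 2) * C) / 4 := by gcongr
      _ = (L + 2) ^ 2 * C := by ring
      _ ≤ (L + 2) ^ 2 * (N * (((Icc 1 N).filter (fun n => ∃ u v, u + v = 2 * n ∧ Q u v)).card : ℝ)) := by gcongr
      _ ≤ (L + 2) ^ 2 * ((3 * X) * S) := by gcongr
      _ = _ := by ring
  refine (g2 W R hW0 hWle hR).trans ?_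
  rw [div_le_iff₀ (by positivity)]
  exact h5

open Classical in
theorem main (B ε : ℝ) (hB : 2 ≤ B) (hε : 0 < ε) : ∃ δ : ℝ, 0 < δ ∧ ∃ X₀ : ℝ, ∀ X : ℝ, X₀ ≤ X →
    X * Real.exp (-(Real.log X) ^ ε) ≤ (((Icc 1 ⌊X⌋₊).filter (Many B δ)).card : ℝ) ∧
    X * Real.exp (-(Real.log X) ^ ε) ≤ (((Icc 1 ⌊X⌋₊).filter (Few B δ)).card : ℝ) := by
  obtain ⟨m, hm1, hm⟩ := Pool.Agent.X30.MI.exists_k B ε (by linarith) hε
  obtain ⟨δ1, hδ1, h1⟩ := many B ε hB (2 * m) (by omega) ⟨m, by ring⟩ (hm _ (by omega)).1 (hm _ (by omega)).2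
  obtain ⟨δ2, hδ2, h2⟩ := few B ε hB (2 * m + 1) (by omega) ⟨m, rfl⟩ (hm _ (by omega)).1 (hm _ (by omega)).2
  have htend : Tendsto (fun x : ℝ => x / 3) atTop atTop := tendsto_id.atTop_div_const (by norm_num)
  obtain ⟨X₀, hX₀⟩ := eventually_atTop.1 ((htend.eventually h1).and (htend.eventually h2))
  refine ⟨min δ1 δ2, lt_min hδ1 hδ2, X₀, fun X hX => ?_⟩
  obtain ⟨h3, h4⟩ := hX₀ X hX
  have h5 : 3 * (X / 3) = X := by ring
  rw [h5] at h3 h4
  constructor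
  · refine h3.trans ?_
    have : (Icc 1 ⌊X⌋₊).filter (Many B δ1) ⊆ (Icc 1 ⌊X⌋₊).filter (Many B (min δ1 δ2)) := by
      intro n hn
      rw [Finset.mem_filter] at hn ⊢
      obtain ⟨u, v, a1, a2, a3, a4⟩ := hn.2
      refine ⟨hn.1, u, v, a1, a2, a3, le_trans ?_ a4⟩
      have b1 : 0 ≤ (Real.log n) ^ (B - 2) := Real.rpow_nonneg (Real.log_natCast_nonneg n) _
      have b2 := min_le_left δ1 δ2
      have b3 := sing_nonneg (2 * n)
      gcongr
    exact_mod_cast Finset.card_le_card this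
  · refine h4.trans ?_
    have : (Icc 1 ⌊X⌋₊).filter (Few B δ2) ⊆ (Icc 1 ⌊X⌋₊).filter (Few B (min δ1 δ2)) := by
      intro n hn
      rw [Finset.mem_filter] at hn ⊢
      obtain ⟨u, v, a1, a2, a3, a4⟩ := hn.2
      refine ⟨hn.1, u, v, a1, a2, a3, le_trans a4 ?_⟩
      have b1 : 0 ≤ (Real.log n) ^ (B - 2) := Real.rpow_nonneg (Real.log_natCast_nonneg n) _
      have b2 := min_le_right δ1 δ2
      have b3 := sing_nonneg (2 * n)
      gcongr
    exact_mod_cast Finset.card_le_card this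

end Pool.Agent.X25.GM
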