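import Pool.Agent.X25.GM.Cls

/-! The set-up of Maier's method for Goldbach's problem. -/

set_option autoImplicit false

open Finset Filter Topology
open Pool.Agent.H378R2 Pool.Agent.H510R2.Maier Pool.Agent.X30.MR Pool.Agent.X30.MG

namespace Pool.Agent.X25.GM

theorem ev_K (K : ℝ) : ∀ᶠ L : ℝ in atTop, K * Real.exp (L / 700) * Real.exp (L / 2) ≤ Real.exp L := by
  have h1 : Tendsto (fun L : ℝ => Real.exp (349 / 700 * L)) atTop atTop :=
    Real.tendsto_exp_atTop.comp (tendsto_id.const_mul_atTop (by norm_num))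
  filter_upwards [h1.eventually_ge_atTop K] with L hL
  calc K * Real.exp (L / 700) * Real.exp (L / 2) ≤ Real.exp (349 / 700 * L) * Real.exp (L / 700) * Real.exp (L / 2) := by
        gcongr
    _ = Real.exp L := by
        rw [← Real.exp_add, ← Real.exp_add]
        congr 1; ring

theorem RW_BE {P : Finset ℕ} (hP : ∀ p ∈ P, p.Prime) : RW P * BE P = 1 := by
  unfold RW BE
  rw [← Finset.prod_mul_distrib]
  apply Finset.prod_eq_one
  intro p hp
  have h1 : (1 : ℝ) < p := by exact_mod_cast (hP p hp).one_lt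
  have h2 : (p : ℝ) - 1 ≠ 0 := by linarith
  have h3 : (p : ℝ) ≠ 0 := by linarith
  field_simp

theorem Sn_bounds (X : ℝ) (hX : 4 ≤ X) (W : ℕ) (hW : 0 < W) (hWX : (W : ℝ) ≤ X) :
    MPhi X / W - 5 ≤ Sn X W ∧ Sn X W ≤ MPhi X / W + 5 := by
  have h := sum_nu X hX W 0 hW hWX
  have e : MPhi X * (1 / (W : ℝ)) = MPhi X / W := by ring
  rw [e, abs_le] at h
  unfold Sn
  constructor <;> linarith [h.1, h.2]

theorem num1 (δ : ℝ) (h0 : 0 < δ) (h1 : δ ≤ 1 / 2) : 1 - δ / 40 ≤ (1 - δ / 400) * (1 - δ / 200) := by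
  nlinarith

theorem num2 (δ : ℝ) (h0 : 0 < δ) (h1 : δ ≤ 1 / 2) : (1 + δ / 400) * (1 + δ / 400) ≤ 1 + δ / 40 := by
  nlinarith

theorem num3 (δ : ℝ) (h0 : 0 < δ) (h1 : δ ≤ 1 / 2) : 1 + δ / 2 ≤ (1 - δ / 100) ^ 2 * (1 + δ) := by
  have h2 : 1 - δ / 50 ≤ (1 - δ / 100) ^ 2 := by nlinarith
  have h3 : 1 + δ / 2 ≤ (1 - δ / 50) * (1 + δ) := by nlinarith
  exact h3.trans (mul_le_mul_of_nonneg_right h2 (by linarith))

theorem num4 (δ : ℝ) (h0 : 0 < δ) (h1 : δ ≤ 1 / 2) : (1 + δ / 100) ^ 2 * (1 - δ) ≤ 1 - 3 * δ / 4 := by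
  have h2 : (1 + δ / 100) ^ 2 ≤ 1 + δ / 20 := by nlinarith
  have h3 : (1 + δ / 20) * (1 - δ) ≤ 1 - 3 * δ / 4 := by nlinarith
  exact (mul_le_mul_of_nonneg_right h2 (by linarith)).trans h3

theorem num5 (δ m z q : ℝ) (h0 : 0 < δ) (h1 : δ ≤ 1 / 2) (hz : 800 ≤ z) (hm : 0 < m) (hq : q ≤ δ / 400 * m) :
    q ≤ m * (1 - 1 / z) := by
  have h2 : 1 / z ≤ 1 / 2 := by
    rw [div_le_div_iff₀ (by linarith) (by norm_num)]; linarith
  have h3 : m * (1 / z) ≤ m * (1 / 2) := mul_le_mul_of_nonneg_left h2 hm.le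
  have h4 : δ / 400 * m ≤ 1 / 2 * m := mul_le_mul_of_nonneg_right (by linarith) hm.le
  have e : m * (1 - 1 / z) = m - m * (1 / z) := by ring
  rw [e]
  linarith

set_option maxHeartbeats 4000000 in
theorem setup (B : ℝ) (hB : 1 ≤ B) (k : ℕ) (hk : 1 ≤ k) (hBk : B * be k ≤ 1 / 4) :
    ∃ δ : ℝ, 0 < δ ∧ δ ≤ 1 / 2 ∧ ∀ᶠ X : ℝ in atTop, ∀ Y : ℕ, (Real.log X) ^ B - 1 ≤ Y →
      (Y : ℝ) ≤ (Real.log X + 2) ^ B → ∃ (W : ℕ) (R : ℝ), 0 < W ∧
        (W : ℝ) ≤ Real.exp (3 / 2 * (Real.log X + 2) ^ (B * be k)) ∧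
        (MPhi X / W) ^ 2 ≤ R ∧
        (Even k → (1 + δ / 2) * Y * R ≤ TT X W Y) ∧
        (Odd k → TT X W Y ≤ (1 - 3 * δ / 4) * Y * R) ∧
        (1 - δ / 40) * R ≤ tot X W ∧ tot X W ≤ (1 + δ / 40) * R := by
  classical
  obtain ⟨δ, hδ0, hδ1, η, hη0, Y0, hY0, hside⟩ := side k hk
  set A : ℕ := ⌈B⌉₊ + 1 with hA
  refine ⟨δ, hδ0, hδ1, ?_⟩
  set z : ℕ := ⌈400 / δ⌉₊ with hz
  have hz1 : 400 / δ ≤ z := Nat.le_ceil _
  have hz2 : (800 : ℝ) ≤ z := by
    refine le_trans ?_ hz1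
    rw [le_div_iff₀ hδ0]; linarith
  have hz3 : 800 ≤ z := by exact_mod_cast hz2
  have hz4 : 1 / (z : ℝ) ≤ δ / 400 := by
    rw [div_le_div_iff₀ (by linarith) (by norm_num)]
    rw [div_le_iff₀ hδ0] at hz1
    linarith
  have hlog : Tendsto Real.log atTop atTop := Real.tendsto_log_atTop
  have hB0 : 0 < B := by linarith
  have hBA : B + 1 ≤ A := by
    have := Nat.le_ceil B
    rw [hA]; push_cast; linarith
  have e0 := cls A (δ / 100) (by positivity) (by linarith) 1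
  have e1 : ∀ᶠ L : ℝ in atTop, (L + 2) ^ B ≤ L ^ A := by
    filter_upwards [eventually_ge_atTop (2 : ℝ), (eventually_ge_atTop ((2 : ℝ) ^ B))] with L h1 h2
    have hL0 : 0 < L := by linarith
    calc (L + 2) ^ B ≤ (2 * L) ^ B := Real.rpow_le_rpow (by linarith) (by linarith) hB0.le
      _ = 2 ^ B * L ^ B := Real.mul_rpow (by norm_num) hL0.le
      _ ≤ L * L ^ B := by gcongr
      _ = L ^ (B + 1) := by rw [Real.rpow_add hL0, Real.rpow_one]; ring
      _ ≤ L ^ (A : ℝ) := Real.rpow_le_rpow_of_exponent_le (by linarith) hBA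
      _ = L ^ A := Real.rpow_natCast _ _
  have e2 : ∀ᶠ L : ℝ in atTop, (L + 2) ^ (1 / 4 : ℝ) ≤ L / 1000 := by
    have h1 := (tendsto_rpow_atTop (show (0 : ℝ) < 3 / 4 by norm_num)).eventually_ge_atTop (2000 : ℝ)
    filter_upwards [h1, eventually_ge_atTop (2 : ℝ)] with L h2 h3
    have hL0 : 0 < L := by linarith
    have h4 : (L + 2) ^ (1 / 4 : ℝ) ≤ 2 * L ^ (1 / 4 : ℝ) := by
      calc (L + 2) ^ (1 / 4 : ℝ) ≤ (2 * L) ^ (1 / 4 : ℝ) := Real.rpow_le_rpow (by linarith) (by linarith) (by norm_num)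
        _ = 2 ^ (1 / 4 : ℝ) * L ^ (1 / 4 : ℝ) := Real.mul_rpow (by norm_num) hL0.le
        _ ≤ 2 * L ^ (1 / 4 : ℝ) := by
            gcongr
            calc (2 : ℝ) ^ (1 / 4 : ℝ) ≤ 2 ^ (1 : ℝ) := Real.rpow_le_rpow_of_exponent_le (by norm_num) (by norm_num)
              _ = 2 := Real.rpow_one _
    have h5 : L = L ^ (1 / 4 : ℝ) * L ^ (3 / 4 : ℝ) := by
      rw [← Real.rpow_add hL0]; norm_num
    have h6 : 0 < L ^ (1 / 4 : ℝ) := Real.rpow_pos_of_pos hL0 _
    rw [le_div_iff₀ (by norm_num)]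
    calc (L + 2) ^ (1 / 4 : ℝ) * 1000 ≤ 2 * L ^ (1 / 4 : ℝ) * 1000 := by gcongr
      _ = L ^ (1 / 4 : ℝ) * 2000 := by ring
      _ ≤ L ^ (1 / 4 : ℝ) * L ^ (3 / 4 : ℝ) := by gcongr
      _ = L := h5.symm
  have e3 : ∀ᶠ L : ℝ in atTop, max Y0 ((z : ℝ) ^ (1 / al k)) + 1 ≤ L ^ B :=
    (tendsto_rpow_atTop hB0).eventually_ge_atTop _
  have e4 : ∀ᶠ L : ℝ in atTop, 6 / (Real.log L) ^ 2 ≤ η := by
    have h1 : Tendsto (fun L : ℝ => 6 / (Real.log L) ^ 2) atTop (𝓝 0) := by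
      apply Tendsto.div_atTop tendsto_const_nhds
      exact (tendsto_pow_atTop (by norm_num)).comp Real.tendsto_log_atTop
    exact (h1.eventually_lt_const hη0).mono fun L h => h.le
  set Cz : ℝ := 2 * ((∏ p ∈ OP z, p : ℕ) : ℝ) with hCz
  have hCz0 : 0 ≤ Cz := by positivity
  have e5 := ev_K (8000 / δ * (50 + 20 * Real.sqrt z) + Cz)
  have e6 : ∀ᶠ X : ℝ in atTop, (z : ℝ) ≤ X := eventually_ge_atTop _
  filter_upwards [e0, hlog.eventually e1, hlog.eventually e2, hlog.eventually e3, hlog.eventually e4,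
    hlog.eventually e5, eventually_ge_atTop (40 : ℝ), hlog.eventually_ge_atTop (1 : ℝ), e6]
    with X g0 g1 g2 g3 g4 g5 g6 g7 g8
  intro Y hYl hYu
  obtain ⟨ps, S, hps, hS, hr⟩ := g0
  set L := Real.log X with hL
  have hL0 : 0 < L := by linarith
  have hX0 : 0 < X := by linarith
  have hexpL : Real.exp L = X := Real.exp_log hX0
  have hYY : max Y0 ((z : ℝ) ^ (1 / al k)) ≤ Y := by linarith
  have hYpos : (1 : ℝ) ≤ Y := hY0.trans ((le_max_left _ _).trans hYY)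
  have hbb : ⌊(Y : ℝ) ^ be k⌋₊ ≤ yy X := by
    apply Nat.floor_le_floor
    calc (Y : ℝ) ^ be k ≤ ((L + 2) ^ B) ^ be k := Real.rpow_le_rpow (by linarith) hYu (be_pos k).le
      _ = (L + 2) ^ (B * be k) := by rw [← Real.rpow_mul (by linarith)]
      _ ≤ (L + 2) ^ (1 / 4 : ℝ) := Real.rpow_le_rpow_of_exponent_le (by linarith) hBk
      _ ≤ L / 1000 := g2
  have hza : z ≤ ⌊(Y : ℝ) ^ al k⌋₊ := by
    apply Nat.le_floor
    have h1 := (le_max_right Y0 ((z : ℝ) ^ (1 / al k))).trans hYY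
    have h2 := Real.rpow_le_rpow (by positivity) h1 (al_pos k).le
    rw [← Real.rpow_mul (by positivity), one_div_mul_cancel (al_pos k).ne', Real.rpow_one] at h2
    exact h2
  obtain ⟨s1, s2⟩ := hside X S ps Y ((le_max_left _ _).trans hYY) hbb (fun q hq => (hS.1 q hq).1)
    (hS.2.trans g4)
  set P := PR X S ps ⌊(Y : ℝ) ^ al k⌋₊ ⌊(Y : ℝ) ^ be k⌋₊ with hP
  have hPW : P ⊆ PW X S ps := Finset.filter_subset _ _
  have hPp : ∀ p ∈ P, p.Prime := fun p hp => (mem_PW.1 (hPW hp)).2.1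
  have hPz : ∀ p ∈ P, z < p := fun p hp => lt_of_le_of_lt hza (Finset.mem_filter.1 hp).2.1
  set N := ⌊3 * X⌋₊ with hN
  have hLX : L ≤ X := by
    have := Real.add_one_le_exp L
    linarith
  have hXN : X ≤ (N : ℝ) := by
    have := Nat.lt_floor_add_one (3 * X)
    linarith
  have hyN : yy X ≤ N := by
    have h1 : (yy X : ℝ) ≤ L / 1000 := Nat.floor_le (by positivity)
    have : (yy X : ℝ) ≤ N := by linarith
    exact_mod_cast this
  have hPO : P ⊆ OP (2 * N) := by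
    intro p hp
    refine mem_OP.2 ⟨?_, ?_, hPp p hp⟩
    · have := hPz p hp
      omega
    · have := (mem_PW.1 (hPW hp)).1
      omega
  obtain ⟨W2, hW2, hco, hWprod, hWDle⟩ := sub_decomp X S ps P hPW
  have hWle := hWDle.trans (WW_le X (by linarith) S ps)
  have hT := TT_bounds X (∏ p ∈ P, p) Y (MPhi X / (∏ p ∈ P, p).totient) (δ / 100)
    (div_nonneg (MPhi_nonneg X) (Nat.cast_nonneg _)) (by positivity) (by linarith)
    (fun h hh hc => (hr P hPW h (by
      have h1 : (h : ℝ) ≤ Y := by exact_mod_cast (Finset.mem_Icc.1 hh).2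
      linarith)).1 hc)
    (fun h hh hc => (hr P hPW h (by
      have h1 : (h : ℝ) ≤ Y := by exact_mod_cast (Finset.mem_Icc.1 hh).2
      linarith)).2 hc)
  have hW1 : 1 ≤ 2 * N := by
    have : (1 : ℝ) ≤ N := by linarith
    have : 1 ≤ N := by exact_mod_cast this
    omega
  have hU := tot_le X (by linarith) hPO
  have hLo := tot_ge X (by linarith) hPO z (by omega) (by
    have : (z : ℝ) ≤ N := by linarith
    have : z ≤ N := by exact_mod_cast this
    omega) hPz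
  set W := ∏ p ∈ P, p with hW
  have hW0 : 0 < W := Finset.prod_pos fun p hp => (hPp p hp).pos
  have hWr : (0 : ℝ) < W := by exact_mod_cast hW0
  set b := BE P with hb
  have hb0 : 0 < b := BE_pos hPp
  have hb1 : b ≤ 1 := BE_le_one hPp
  have hφ : (W.totient : ℝ) = W * b := totient_prod _ hPp
  have hM1 := MPhi_ge X g6
  set M := MPhi X with hM
  have hM0 : 0 < M := by linarith
  set V : ℝ := (VV W 0 Y : ℝ) with hV
  have hMW : 0 < M / W := by positivity
  set rw := RW P with hrw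
  have hrb : rw * b = 1 := RW_BE hPp
  have hr0 : 0 < rw := RW_pos hPO
  have hr1 : 1 ≤ rw := by
    by_contra h
    push Not at h
    have : rw * b < 1 := by nlinarith
    linarith
  have hMφ : M / W.totient = (M / W) * rw := by
    rw [hφ]
    have : rw = 1 / b := by field_simp; linarith
    rw [this]
    field_simp
  set m := M / W with hm
  -- the estimates
  have hsq : Real.sqrt X = Real.exp (L / 2) := by
    rw [← hexpL, Real.sqrt_eq_iff_mul_self_eq (Real.exp_pos _).le (Real.exp_pos _).le, ← Real.exp_add]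
    congr 1; ring
  have hs1 : 1 ≤ Real.sqrt X := by
    rw [hsq]; exact Real.one_le_exp (by positivity)
  rw [hexpL, ← hsq] at g5
  have hWe : (W : ℝ) ≤ Real.exp (L / 700) := hWle
  have hsz : 0 ≤ Real.sqrt z := Real.sqrt_nonneg _
  have g5' : (8000 / δ * (50 + 20 * Real.sqrt z) + Cz) * W * Real.sqrt X ≤ X := by
    refine le_trans ?_ g5
    gcongr
  have hd0 : 0 < 8000 / δ := by positivity
  have k1 : 8000 / δ * (50 * Real.sqrt X + 20 * Real.sqrt z) * W ≤ X := by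
    refine le_trans ?_ g5'
    have h1 : 8000 / δ * (50 * Real.sqrt X + 20 * Real.sqrt z) ≤ 8000 / δ * ((50 + 20 * Real.sqrt z) * Real.sqrt X) := by
      gcongr
      nlinarith
    calc 8000 / δ * (50 * Real.sqrt X + 20 * Real.sqrt z) * W
        ≤ 8000 / δ * ((50 + 20 * Real.sqrt z) * Real.sqrt X) * W := by gcongr
      _ = (8000 / δ * (50 + 20 * Real.sqrt z)) * W * Real.sqrt X := by ring
      _ ≤ _ := by gcongr; linarith
  have k2 : 50 * Real.sqrt X + 20 * Real.sqrt z ≤ δ / 400 * m := by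
    have h1 : (50 * Real.sqrt X + 20 * Real.sqrt z) * W ≤ δ / 8000 * X := by
      calc (50 * Real.sqrt X + 20 * Real.sqrt z) * W = δ / 8000 * (8000 / δ * (50 * Real.sqrt X + 20 * Real.sqrt z) * W) := by
            field_simp
        _ ≤ _ := by gcongr
    have h2 : 50 * Real.sqrt X + 20 * Real.sqrt z ≤ δ / 8000 * X / W := by
      rw [le_div_iff₀ hWr]; exact h1
    refine h2.trans ?_
    rw [hm]
    calc δ / 8000 * X / W = δ / 400 * (X / 20 / W) := by ring
      _ ≤ _ := by gcongr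
  have k3 : 5 ≤ δ / 400 * m := by nlinarith
  have k4 : 20 * Real.sqrt ((2 * N : ℕ) : ℝ) ≤ δ / 400 * m := by
    have h1 : Real.sqrt ((2 * N : ℕ) : ℝ) ≤ Real.sqrt ((5 / 2) ^ 2 * X) := by
      apply Real.sqrt_le_sqrt
      have : (N : ℝ) ≤ 3 * X := Nat.floor_le (by positivity)
      push_cast
      linarith
    rw [Real.sqrt_mul (by positivity), Real.sqrt_sq (by norm_num)] at h1
    nlinarith
  have hWX : (W : ℝ) ≤ X := by
    refine le_trans ?_ g5'
    have h0 : 1 ≤ 8000 / δ * (50 + 20 * Real.sqrt z) := by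
      have h1 : 1 ≤ 8000 / δ := by rw [le_div_iff₀ hδ0]; linarith
      nlinarith
    calc (W : ℝ) = 1 * W * 1 := by ring
      _ ≤ _ := by
          gcongr
          linarith
  have hWC : ((W * (2 * ∏ p ∈ OP z, p) : ℕ) : ℝ) ≤ X := by
    refine le_trans ?_ g5'
    push_cast
    have h0 : 0 ≤ 8000 / δ * (50 + 20 * Real.sqrt z) := by positivity
    calc (W : ℝ) * (2 * ∏ p ∈ OP z, (p : ℝ)) = Cz * W * 1 := by rw [hCz]; push_cast; ring
      _ ≤ _ := by
          gcongr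
          linarith
  obtain ⟨n1, n2⟩ := Sn_bounds X (by linarith) W hW0 hWX
  rw [← hm] at n1 n2
  have hSn1 : (1 - δ / 400) * m ≤ Sn X W := by linarith
  have hSn2 : Sn X W ≤ (1 + δ / 400) * m := by linarith
  have hLo2 := hLo hWC (num5 δ m z (20 * Real.sqrt z) hδ0 hδ1 hz2 hMW (by
      have : 0 ≤ 50 * Real.sqrt X := by positivity
      linarith))
  have k5 : 20 * Real.sqrt z ≤ δ / 400 * m := by
    have : 0 ≤ 50 * Real.sqrt X := by positivity
    linarith
  refine ⟨W, m ^ 2 * rw, hW0, ?_, ?_, ?_, ?_, ?_, ?_⟩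
  · -- size of W
    have h1 : W ≤ primorial ⌊(Y : ℝ) ^ be k⌋₊ := by
      rw [hW]
      unfold primorial
      apply Finset.prod_le_prod_of_subset_of_one_le'
      · intro p hp
        rw [Finset.mem_filter, Finset.mem_range]
        exact ⟨Nat.lt_succ_of_le (Finset.mem_filter.1 hp).2.2, hPp p hp⟩
      · intro i hi _
        exact (Finset.mem_filter.1 hi).2.one_lt.le
    have h2 : (W : ℝ) ≤ (4 : ℝ) ^ ⌊(Y : ℝ) ^ be k⌋₊ := by
      exact_mod_cast h1.trans (primorial_le_four_pow _)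
    refine h2.trans ?_
    rw [← Real.rpow_natCast, Real.rpow_def_of_pos (by norm_num)]
    apply Real.exp_le_exp.2
    have h3 : (⌊(Y : ℝ) ^ be k⌋₊ : ℝ) ≤ (L + 2) ^ (B * be k) := by
      calc (⌊(Y : ℝ) ^ be k⌋₊ : ℝ) ≤ (Y : ℝ) ^ be k := Nat.floor_le (by positivity)
        _ ≤ ((L + 2) ^ B) ^ be k := Real.rpow_le_rpow (by linarith) hYu (be_pos k).le
        _ = (L + 2) ^ (B * be k) := by rw [← Real.rpow_mul (by linarith)]
    have h4 : Real.log 4 ≤ 3 / 2 := by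
      rw [show (4 : ℝ) = 2 ^ 2 by norm_num, Real.log_pow]
      have := Real.log_two_lt_d9
      push_cast; linarith
    apply mul_le_mul h4 h3 (Nat.cast_nonneg _) (by norm_num)
  · exact le_mul_of_one_le_right (by positivity) hr1
  · intro hke
    rw [hke.neg_one_pow, one_mul] at s1
    refine le_trans ?_ hT.1
    rw [hMφ]
    have h1 : (1 + δ) * (Y * b) ≤ V := by
      have : δ * (Y * b) ≤ δ * Y := by
        have : (Y : ℝ) * b ≤ Y := mul_le_of_le_one_right (by linarith) hb1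
        gcongr
      linarith
    have h2 : (1 + δ) * Y * (m ^ 2 * rw) ≤ (m * rw) ^ 2 * V := by
      calc (1 + δ) * Y * (m ^ 2 * rw) = (m * rw) ^ 2 * ((1 + δ) * (Y * b)) := by
            have : (m * rw) ^ 2 * ((1 + δ) * (Y * b)) = (1 + δ) * Y * (m ^ 2 * rw) * (rw * b) := by ring
            rw [this, hrb, mul_one]
        _ ≤ _ := by gcongr
    calc (1 + δ / 2) * Y * (m ^ 2 * rw) ≤ ((1 - δ / 100) ^ 2 * (1 + δ)) * Y * (m ^ 2 * rw) := by
          have := num3 δ hδ0 hδ1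
          gcongr
      _ = (1 - δ / 100) ^ 2 * ((1 + δ) * Y * (m ^ 2 * rw)) := by ring
      _ ≤ _ := by gcongr
  · intro hko
    rw [hko.neg_one_pow] at s1
    refine hT.2.trans ?_
    rw [hMφ]
    have h1 : V ≤ (1 - δ) * (Y * b) := by
      have : δ * (Y * b) ≤ δ * Y := by
        have : (Y : ℝ) * b ≤ Y := mul_le_of_le_one_right (by linarith) hb1
        gcongr
      linarith
    have h2 : (m * rw) ^ 2 * V ≤ (1 - δ) * Y * (m ^ 2 * rw) := by
      calc (m * rw) ^ 2 * V ≤ (m * rw) ^ 2 * ((1 - δ) * (Y * b)) := by gcongr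
        _ = (1 - δ) * Y * (m ^ 2 * rw) := by
            have : (m * rw) ^ 2 * ((1 - δ) * (Y * b)) = (1 - δ) * Y * (m ^ 2 * rw) * (rw * b) := by ring
            rw [this, hrb, mul_one]
    calc (1 + δ / 100) ^ 2 * ((m * rw) ^ 2 * V) ≤ (1 + δ / 100) ^ 2 * ((1 - δ) * Y * (m ^ 2 * rw)) := by gcongr
      _ = ((1 + δ / 100) ^ 2 * (1 - δ)) * Y * (m ^ 2 * rw) := by ring
      _ ≤ _ := by
          have := num4 δ hδ0 hδ1
          gcongr
  · refine le_trans ?_ hLo2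
    have h1 : (1 - δ / 400) * m - δ / 400 * m ≤ m * (1 - 1 / z) - 20 * Real.sqrt z := by
      have := mul_le_mul_of_nonneg_left hz4 hMW.le
      have e : m * (1 - 1 / (z : ℝ)) = m - m * (1 / z) := by ring
      rw [e]
      linarith
    have h2 : 0 ≤ (1 - δ / 400) * m - δ / 400 * m := by
      have e : (1 - δ / 400) * m - δ / 400 * m = (1 - δ / 200) * m := by ring
      rw [e]
      exact mul_nonneg (by linarith) hMW.le
    calc (1 - δ / 40) * (m ^ 2 * rw) ≤ ((1 - δ / 400) * (1 - δ / 200)) * (m ^ 2 * rw) :=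
          mul_le_mul_of_nonneg_right (num1 δ hδ0 hδ1) (by positivity)
      _ = ((1 - δ / 400) * m) * (rw * ((1 - δ / 400) * m - δ / 400 * m)) := by ring
      _ ≤ Sn X W * (rw * (m * (1 - 1 / z) - 20 * Real.sqrt z)) := by
          have h3 := Sn_nonneg X W
          have h4 : 0 ≤ rw * ((1 - δ / 400) * m - δ / 400 * m) := mul_nonneg hr0.le h2
          exact mul_le_mul hSn1 (mul_le_mul_of_nonneg_left h1 hr0.le) h4 h3
  · refine hU.trans ?_
    have h1 : m * rw + 20 * Real.sqrt ((2 * N : ℕ) : ℝ) ≤ (1 + δ / 400) * (m * rw) := by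
      have h2 : δ / 400 * m ≤ δ / 400 * (m * rw) := by
        apply mul_le_mul_of_nonneg_left _ (by positivity)
        exact le_mul_of_one_le_right hMW.le hr1
      linarith
    calc Sn X W * (m * rw + 20 * Real.sqrt ((2 * N : ℕ) : ℝ)) ≤ ((1 + δ / 400) * m) * ((1 + δ / 400) * (m * rw)) := by
          apply mul_le_mul hSn2 h1 (by positivity) (by positivity)
      _ = ((1 + δ / 400) * (1 + δ / 400)) * (m ^ 2 * rw) := by ring
      _ ≤ _ := mul_le_mul_of_nonneg_right (num2 δ hδ0 hδ1) (by positivity)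

end Pool.Agent.X25.GM
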