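import Pool.Agent.X30.MaierH
import Pool.Agent.W93.GB1

/-! The mean value of the singular series over the sums of two multiples of `W`. -/

set_option autoImplicit false

namespace Pool.Agent.X25.GM

open Finset
open Pool.Agent.H378R2 (Phi MPhi nu)
open Pool.Agent.H560R3.GB (sing C₂)
open Pool.Agent.W93.GB (Pz dv)

/-- the odd primes up to `z` -/
def OP (z : ℕ) : Finset ℕ := (Icc 3 z).filter Nat.Prime

noncomputable def gp (p : ℕ) : ℝ := 1 / ((p : ℝ) - 2)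

theorem mem_OP {z p : ℕ} : p ∈ OP z ↔ 3 ≤ p ∧ p ≤ z ∧ p.Prime := by
  unfold OP
  rw [mem_filter, mem_Icc, and_assoc]

theorem gp_nonneg {p : ℕ} (hp : 3 ≤ p) : 0 ≤ gp p := by
  unfold gp
  have : (3 : ℝ) ≤ p := by exact_mod_cast hp
  apply div_nonneg zero_le_one
  linarith

theorem dv_eq {p : ℕ} (hp : 3 ≤ p) : dv p = 1 + gp p := by
  unfold dv gp
  have h : (3 : ℝ) ≤ p := by exact_mod_cast hp
  have : (p : ℝ) - 2 ≠ 0 := by linarith
  field_simp
  ring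

theorem prod_pos' {z : ℕ} {t : Finset ℕ} (ht : t ⊆ OP z) : 0 < ∏ p ∈ t, p :=
  Finset.prod_pos fun p hp => (mem_OP.1 (ht hp)).2.2.pos

theorem prod_odd {z : ℕ} {t : Finset ℕ} (ht : t ⊆ OP z) : Nat.Coprime 2 (∏ p ∈ t, p) := by
  apply Nat.Coprime.prod_right
  intro p hp
  obtain ⟨h1, -, h2⟩ := mem_OP.1 (ht hp)
  exact (Nat.coprime_primes Nat.prime_two h2).2 (by omega)

theorem prod_cop {z : ℕ} {t s : Finset ℕ} (ht : t ⊆ OP z) (hs : s ⊆ OP z) (h : Disjoint t s) :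
    Nat.Coprime (∏ p ∈ t, p) (∏ p ∈ s, p) := by
  apply Nat.Coprime.prod_left
  intro p hp
  apply Nat.Coprime.prod_right
  intro q hq
  refine (Nat.coprime_primes (mem_OP.1 (ht hp)).2.2 (mem_OP.1 (hs hq)).2.2).2 ?_
  rintro rfl
  exact Finset.disjoint_left.1 h hp hq

/-- the expansion of the singular series -/
theorem sing_sum {m z : ℕ} (hm : m ≠ 0) (hz : m ≤ z) : sing m = 2 * C₂ *
    ∑ t ∈ (OP z).powerset, (if (∏ p ∈ t, p) ∣ m then ∏ p ∈ t, gp p else 0) := by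
  classical
  rw [Pool.Agent.W93.GB.sing_eq]
  congr 1
  have h1 : m.primeFactors.filter (fun p => 2 < p) = (OP z).filter (fun p => p ∣ m) := by
    ext p
    rw [mem_filter, mem_filter, mem_OP, Nat.mem_primeFactors]
    constructor
    · rintro ⟨⟨h1, h2, -⟩, h3⟩
      exact ⟨⟨by omega, (Nat.le_of_dvd (Nat.pos_of_ne_zero hm) h2).trans hz, h1⟩, h2⟩
    · rintro ⟨⟨h1, -, h2⟩, h3⟩
      exact ⟨⟨h2, h3, hm⟩, by omega⟩
  rw [h1]
  have h2 : ∏ p ∈ (OP z).filter (fun p => p ∣ m), dv p = ∏ p ∈ (OP z).filter (fun p => p ∣ m), (1 + gp p) := by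
    apply Finset.prod_congr rfl
    intro p hp
    exact dv_eq (mem_OP.1 (mem_filter.1 hp).1).1
  rw [h2, Finset.prod_one_add, ← Finset.sum_filter]
  apply Finset.sum_congr _ fun _ _ => rfl
  ext t
  rw [mem_powerset, mem_filter, mem_powerset]
  constructor
  · intro h
    refine ⟨h.trans (filter_subset _ _), ?_⟩
    apply Finset.prod_primes_dvd
    · intro p hp
      exact (mem_OP.1 (mem_filter.1 (h hp)).1).2.2.prime
    · intro p hp
      exact (mem_filter.1 (h hp)).2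
  · rintro ⟨h1, h2⟩ p hp
    exact mem_filter.2 ⟨h1 hp, (Finset.dvd_prod_of_mem _ hp).trans h2⟩

/-- the number of pairs with `2 d ∣ u + v` -/
noncomputable def cc (X : ℝ) (W d : ℕ) : ℝ :=
  ∑ u ∈ Icc 1 ⌊3 * X⌋₊, ∑ v ∈ Icc 1 ⌊3 * X⌋₊, nu X W 0 u * nu X W 0 v * (if 2 * d ∣ u + v then 1 else 0)

/-- the sum of the singular series -/
noncomputable def tot (X : ℝ) (W : ℕ) : ℝ :=
  ∑ u ∈ Icc 1 ⌊3 * X⌋₊, ∑ v ∈ Icc 1 ⌊3 * X⌋₊, nu X W 0 u * nu X W 0 v * (if 2 ∣ u + v then sing (u + v) else 0)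

theorem tot_eq (X : ℝ) (W : ℕ) : tot X W = 2 * C₂ *
    ∑ t ∈ (OP (2 * ⌊3 * X⌋₊)).powerset, (∏ p ∈ t, gp p) * cc X W (∏ p ∈ t, p) := by
  classical
  set N := ⌊3 * X⌋₊ with hN
  have h1 : ∀ u ∈ Icc 1 N, ∀ v ∈ Icc 1 N, nu X W 0 u * nu X W 0 v * (if 2 ∣ u + v then sing (u + v) else 0) =
      ∑ t ∈ (OP (2 * N)).powerset, 2 * C₂ * ((∏ p ∈ t, gp p) *
        (nu X W 0 u * nu X W 0 v * (if 2 * (∏ p ∈ t, p) ∣ u + v then 1 else 0))) := by
    intro u hu v hv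
    obtain ⟨hu1, hu2⟩ := mem_Icc.1 hu
    obtain ⟨hv1, hv2⟩ := mem_Icc.1 hv
    rw [← Finset.mul_sum]
    have h2 : ∑ t ∈ (OP (2 * N)).powerset, ((∏ p ∈ t, gp p) *
        (nu X W 0 u * nu X W 0 v * (if 2 * (∏ p ∈ t, p) ∣ u + v then 1 else 0))) =
        nu X W 0 u * nu X W 0 v * ∑ t ∈ (OP (2 * N)).powerset,
          (if 2 * (∏ p ∈ t, p) ∣ u + v then ∏ p ∈ t, gp p else 0) := by
      rw [Finset.mul_sum]
      apply Finset.sum_congr rfl
      intro t _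
      split_ifs <;> ring
    rw [h2]
    by_cases h3 : 2 ∣ u + v
    · rw [if_pos h3, sing_sum (z := 2 * N) (by omega) (by omega)]
      have h4 : ∀ t ∈ (OP (2 * N)).powerset, (if (∏ p ∈ t, p) ∣ u + v then ∏ p ∈ t, gp p else 0) =
          (if 2 * (∏ p ∈ t, p) ∣ u + v then ∏ p ∈ t, gp p else 0) := by
        intro t ht
        have h5 := prod_odd (mem_powerset.1 ht)
        have h6 : (∏ p ∈ t, p) ∣ u + v ↔ 2 * (∏ p ∈ t, p) ∣ u + v :=
          ⟨fun h => h5.mul_dvd_of_dvd_of_dvd h3 h, fun h => (Dvd.intro_left _ rfl).trans h⟩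
        simp only [h6]
      rw [Finset.sum_congr rfl h4]
      ring
    · rw [if_neg h3, mul_zero]
      have h4 : ∑ t ∈ (OP (2 * N)).powerset,
          (if 2 * (∏ p ∈ t, p) ∣ u + v then ∏ p ∈ t, gp p else 0) = 0 := by
        apply Finset.sum_eq_zero
        intro t _
        rw [if_neg]
        intro h
        exact h3 ((Dvd.intro _ rfl).trans h)
      rw [h4]; ring
  unfold tot
  rw [Finset.sum_congr rfl fun u hu => Finset.sum_congr rfl fun v hv => h1 u hu v hv]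
  rw [Finset.mul_sum]
  have h2 : ∀ u ∈ Icc 1 N, ∑ v ∈ Icc 1 N, ∑ t ∈ (OP (2 * N)).powerset, 2 * C₂ * ((∏ p ∈ t, gp p) *
        (nu X W 0 u * nu X W 0 v * (if 2 * (∏ p ∈ t, p) ∣ u + v then 1 else 0))) =
      ∑ t ∈ (OP (2 * N)).powerset, ∑ v ∈ Icc 1 N, 2 * C₂ * ((∏ p ∈ t, gp p) *
        (nu X W 0 u * nu X W 0 v * (if 2 * (∏ p ∈ t, p) ∣ u + v then 1 else 0))) :=
    fun u _ => Finset.sum_comm
  rw [Finset.sum_congr rfl h2, Finset.sum_comm]
  apply Finset.sum_congr rfl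
  intro t _
  unfold cc
  rw [Finset.mul_sum, Finset.mul_sum]
  apply Finset.sum_congr rfl
  intro u _
  rw [Finset.mul_sum, Finset.mul_sum]

/-- the primes of `W` can be omitted -/
theorem cc_sdiff (X : ℝ) {z : ℕ} {P t : Finset ℕ} (hP : P ⊆ OP z) (ht : t ⊆ OP z) :
    cc X (∏ p ∈ P, p) (∏ p ∈ t, p) = cc X (∏ p ∈ P, p) (∏ p ∈ t \ P, p) := by
  classical
  unfold cc
  apply Finset.sum_congr rfl
  intro u _
  apply Finset.sum_congr rfl
  intro v _
  by_cases hu : u ≡ 0 [MOD ∏ p ∈ P, p]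
  · by_cases hv : v ≡ 0 [MOD ∏ p ∈ P, p]
    · congr 1
      have h1 : ∏ p ∈ P, p ∣ u + v := dvd_add ((Nat.modEq_zero_iff_dvd).1 hu) ((Nat.modEq_zero_iff_dvd).1 hv)
      have h2 : ∏ p ∈ t, p = (∏ p ∈ t ∩ P, p) * ∏ p ∈ t \ P, p := (Finset.prod_inter_mul_prod_diff t P id).symm
      have h3 : (∏ p ∈ t ∩ P, p) ∣ u + v :=
        (Finset.prod_dvd_prod_of_subset _ _ _ Finset.inter_subset_right).trans h1
      have h4 : Nat.Coprime (∏ p ∈ t ∩ P, p) (2 * ∏ p ∈ t \ P, p) := by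
        refine Nat.Coprime.mul_right (prod_odd (Finset.inter_subset_left.trans ht)).symm
          (prod_cop (Finset.inter_subset_left.trans ht) (Finset.sdiff_subset.trans ht) ?_)
        rw [Finset.disjoint_left]
        intro p h5 h6
        exact (Finset.mem_sdiff.1 h6).2 (Finset.mem_inter.1 h5).2
      have h5 : 2 * (∏ p ∈ t, p) ∣ u + v ↔ 2 * (∏ p ∈ t \ P, p) ∣ u + v := by
        rw [h2]
        constructor
        · intro h
          refine dvd_trans ?_ h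
          exact Nat.mul_dvd_mul_left 2 (Dvd.intro_left _ rfl)
        · intro h
          have := h4.mul_dvd_of_dvd_of_dvd h3 h
          rwa [show (∏ p ∈ t ∩ P, p) * (2 * ∏ p ∈ t \ P, p) = 2 * ((∏ p ∈ t ∩ P, p) * ∏ p ∈ t \ P, p) by ring] at this
      simp only [h5]
    · unfold nu
      rw [if_neg hv]; ring
  · unfold nu
    rw [if_neg hu]; ring

theorem sum_split {O P : Finset ℕ} (hP : P ⊆ O) (g : ℕ → ℝ) (F : Finset ℕ → ℝ) :
    ∑ t ∈ O.powerset, (∏ p ∈ t, g p) * F (t \ P) =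
      (∏ p ∈ P, (1 + g p)) * ∑ t ∈ (O \ P).powerset, (∏ p ∈ t, g p) * F t := by
  classical
  rw [Finset.prod_one_add, Finset.sum_mul_sum, ← Finset.sum_product']
  apply Finset.sum_bij' (fun t _ => (t ∩ P, t \ P)) (fun q _ => q.1 ∪ q.2)
  · intro t ht
    rw [mem_powerset] at ht
    rw [mem_product, mem_powerset, mem_powerset]
    exact ⟨Finset.inter_subset_right, Finset.sdiff_subset_sdiff ht (Finset.Subset.refl P)⟩
  · rintro ⟨a, b⟩ hq
    rw [mem_product, mem_powerset, mem_powerset] at hq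
    rw [mem_powerset]
    exact Finset.union_subset (hq.1.trans hP) (hq.2.trans Finset.sdiff_subset)
  · intro t _
    ext p
    simp only [mem_union, mem_inter, mem_sdiff]
    tauto
  · rintro ⟨a, b⟩ hq
    rw [mem_product, mem_powerset, mem_powerset] at hq
    obtain ⟨h1, h2⟩ := hq
    have h1' : ∀ p ∈ a, p ∈ P := fun p hp => h1 hp
    have h2' : ∀ p ∈ b, p ∉ P := fun p hp => (mem_sdiff.1 (h2 hp)).2
    apply Prod.ext
    · ext p
      simp only [mem_union, mem_inter]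
      constructor
      · rintro ⟨h | h, h3⟩
        · exact h
        · exact absurd h3 (h2' p h)
      · intro h; exact ⟨Or.inl h, h1' p h⟩
    · ext p
      simp only [mem_union, mem_sdiff]
      constructor
      · rintro ⟨h | h, h3⟩
        · exact absurd (h1' p h) h3
        · exact h
      · intro h; exact ⟨Or.inr h, h2' p h⟩
  · intro t _
    have : ∏ p ∈ t, g p = (∏ p ∈ t ∩ P, g p) * ∏ p ∈ t \ P, g p := (Finset.prod_inter_mul_prod_diff t P g).symm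
    show (∏ p ∈ t, g p) * F (t \ P) = (∏ p ∈ t ∩ P, g p) * ((∏ p ∈ t \ P, g p) * F (t \ P))
    rw [this]; ring

theorem tot_eq2 (X : ℝ) {P : Finset ℕ} (hP : P ⊆ OP (2 * ⌊3 * X⌋₊)) : tot X (∏ p ∈ P, p) = 2 * C₂ *
    ((∏ p ∈ P, (1 + gp p)) *
      ∑ t ∈ (OP (2 * ⌊3 * X⌋₊) \ P).powerset, (∏ p ∈ t, gp p) * cc X (∏ p ∈ P, p) (∏ p ∈ t, p)) := by
  rw [tot_eq, ← sum_split hP gp (fun t => cc X (∏ p ∈ P, p) (∏ p ∈ t, p))]
  congr 1
  apply Finset.sum_congr rfl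
  intro t ht
  rw [cc_sdiff X hP (mem_powerset.1 ht)]

end Pool.Agent.X25.GM
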